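import Pool.Agent.N569.TW.Final

/-!
# Braids times full twists
-/

set_option autoImplicit false

namespace Pool.Agent.N569.TW

open Pool.Agent.H891R2.Jones Pool.Agent.W639.RB Pool.Agent.TH561 Finset LaurentPolynomial

variable {m : ℕ}

theorem flip_flip (L : List (Bool × ℕ)) : (L.map flipL).map flipL = L := by
  rw [List.map_map]
  have : flipL ∘ flipL = id := by
    funext x
    simp [flipL]
  rw [this, List.map_id]

namespace Tw

theorem ofList_word (L : List (Bool × ℕ)) : (ofList L).word = L := by
  induction L with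
  | nil => rfl
  | cons x L ih => rw [ofList, word, ih]

theorem ofList_debt (L : List (Bool × ℕ)) : (ofList L).debt = L.countP (fun x => !x.1) := by
  induction L with
  | nil => rfl
  | cons x L ih =>
    rw [ofList, debt, ih, List.countP_cons]
    obtain ⟨b, i⟩ := x
    cases b <;> simp [add_comm]

theorem ofList_fits (L : List (Bool × ℕ)) (n k : ℕ) (h : ∀ x ∈ L, k ≤ x.2 ∧ x.2 + 1 < k + n) :
    (ofList L).Fits n k := by
  induction L with
  | nil => trivial
  | cons x L ih =>
    have h1 := h x List.mem_cons_self
    exact ⟨h1.1, h1.2, ih (fun y hy => h y (List.mem_cons_of_mem _ hy))⟩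

end Tw

theorem countP_ofFn {l : ℕ} {α : Type*} (f : Fin l → α) (p : α → Bool) :
    (List.ofFn f).countP p = #{i | p (f i) = true} := by
  have h1 := List.countP_eq_length_filter (p := p) (l := List.ofFn f)
  rw [h1]
  have h2 : ((List.ofFn f).filter p).length = ((List.finRange l).filter (fun i => p (f i))).length := by
    rw [List.ofFn_eq_map, List.filter_map, List.length_map]
    rfl
  rw [h2]
  have h3 : #{i | p (f i) = true} = ((List.finRange l).filter (fun i => p (f i))).toFinset.card := by
    congr 1
    ext i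
    simp
  rw [h3, List.toFinset_card_of_nodup ((List.nodup_finRange l).filter _)]

theorem braid_case (hm : 3 ≤ m) (s : Bool) (a : ℕ) (ha : 1 ≤ a) (l : ℕ) (w : Fin l → Letter m)
    (hq : #{i | (w i).1 ≠ s} ≤ m * a) :
    ∃ t : Tw, t.Fits m 0 ∧ t.debt = 0 ∧ t.signed s = toL w ++ TW s m 0 a ∧ t.boxes = 1 ∧
      eps s * expo t.word = (∑ i, (if (w i).1 then (1 : ℤ) else -1)) + eps s * (a * (m * (m - 1))) := by
  set L : List (Bool × ℕ) := if s then toL w else (toL w).map flipL with hL
  have hLmem : ∀ x ∈ L, 0 ≤ x.2 ∧ x.2 + 1 < 0 + m := by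
    intro x hx
    refine ⟨Nat.zero_le _, ?_⟩
    rw [zero_add]
    cases s
    · rw [hL, if_neg (by simp)] at hx
      exact flip_mem _ (toL_mem w) x hx
    · rw [hL, if_pos rfl] at hx
      exact toL_mem w x hx
  have hcount : L.countP (fun x => !x.1) ≤ m * a := by
    refine le_trans (le_of_eq ?_) hq
    cases s
    · rw [hL, if_neg (by simp), List.countP_map]
      unfold toL
      rw [countP_ofFn]
      congr 1
      ext i
      simp [flipL]
    · rw [hL, if_pos rfl]
      unfold toL
      rw [countP_ofFn]
      congr 1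
      ext i
      simp
  refine ⟨Tw.box m 0 a (Tw.ofList L) Tw.nil, ⟨hm, ha, le_rfl, le_rfl, Tw.ofList_fits L m 0 hLmem, trivial⟩,
    ?_, ?_, ?_, ?_⟩
  · rw [Tw.debt, Tw.debt, Tw.ofList_debt, add_zero]
    omega
  · unfold Tw.signed
    rw [Tw.word, Tw.word, Tw.ofList_word, List.append_nil]
    cases s
    · rw [if_neg (by simp), List.map_append, TW_flip, hL, if_neg (by simp), flip_flip]
    · rw [if_pos rfl, hL, if_pos rfl]
  · rw [Tw.boxes, Tw.boxes]
    have : ∀ l : List (Bool × ℕ), (Tw.ofList l).boxes = 0 := by
      intro l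
      induction l with
      | nil => rfl
      | cons x l ih => rw [Tw.ofList, Tw.boxes, ih]
    rw [this]
  · have h1 : expo (toL w) = ∑ i, (if (w i).1 then (1 : ℤ) else -1) := by
      unfold expo toL
      rw [List.map_ofFn, List.sum_ofFn]
      rfl
    rw [Tw.word, Tw.word, Tw.ofList_word, List.append_nil, expo_append, expo_TW _ _ _ (by omega), ← h1, hL]
    cases s
    · rw [if_neg (by simp), expo_flip]
      simp only [eps, Bool.false_eq_true, if_false]
      ring
    · rw [if_pos rfl]
      simp only [eps, if_true]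
      ring

end Pool.Agent.N569.TW
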