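import Pool.Agent.N569.TW.Rep

/-!
# Full twists absorb the defect
-/

set_option autoImplicit false

namespace Pool.Agent.N569.TW

open Pool.Agent.H891R2.Jones Pool.Agent.W639.RB Pool.Agent.TH561 Finset LaurentPolynomial

variable {m : ℕ}

/-- the word `k + j, k + j - 1, …, k` -/
def dn (k : ℕ) : ℕ → List ℕ
  | 0 => [k]
  | j+1 => (k + j + 1) :: dn k j

/-- the word `k + 1, …, k + j` -/
def up (k : ℕ) : ℕ → List ℕ
  | 0 => []
  | j+1 => up k j ++ [k + j + 1]

theorem dn_mem (k j : ℕ) : ∀ i ∈ dn k j, k ≤ i ∧ i ≤ k + j := by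
  induction j with
  | zero => intro i hi; simp [dn] at hi; omega
  | succ j ih =>
    intro i hi
    rw [dn, List.mem_cons] at hi
    rcases hi with rfl | hi
    · omega
    · have := ih i hi; omega

theorem up_mem (k j : ℕ) : ∀ i ∈ up k j, k ≤ i ∧ i ≤ k + j := by
  induction j with
  | zero => intro i hi; simp [up] at hi
  | succ j ih =>
    intro i hi
    rw [up, List.mem_append, List.mem_singleton] at hi
    rcases hi with hi | rfl
    · have := ih i hi; omega
    · omega

theorem dn_up (N k : ℕ) (j : ℕ) (h : k + j + 1 < m) :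
    WP (KK m N) (dn k j) * WP (KK m N) (up k j) = KK m N (k + j) := by
  induction j with
  | zero => simp [dn, up, WP]
  | succ j ih =>
    rw [dn, up, WP_cons, WP_append, ← mul_assoc, mul_assoc (KK m N (k + j + 1)), ih (by omega)]
    have h1 : WP (KK m N) [k + j + 1] = KK m N (k + j + 1) := by simp [WP]
    rw [h1]
    exact (isTL_KK m N).down (k + j) (by omega)

theorem K_pow_F (N : ℕ) (hN : 3 ≤ N) (n k a : ℕ) (hM : k + n + 2 ≤ m) :
    KK m N k * (FF (sg (Ar N) (KK m N)) (n + 2) k) ^ a =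
      ((Ar N)⁻¹ ^ (6 * a)) • (KK m N k * (FF (sg (Ar N) (KK m N)) n (k + 2)) ^ a) := by
  have h := isTL_KK m N
  have h1 := FF_e (Ar_ne N hN) (Ar_d N hN) h n k hM
  have h2 := FF_comm_e (Ar_ne N hN) (Ar_d N hN) h (n + 2) k k (by omega) le_rfl (by omega)
  have h3 : Commute (KK m N k) (FF (sg (Ar N) (KK m N)) n (k + 2)) :=
    commute_FF _ _ (fun i hi hi' => far_es h k i (by omega) (by omega))
  have h4 : KK m N k * FF (sg (Ar N) (KK m N)) (n + 2) k =
      ((Ar N)⁻¹ ^ 6) • (KK m N k * FF (sg (Ar N) (KK m N)) n (k + 2)) := by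
    rw [h2.eq, h1, h3.eq]
  induction a with
  | zero => simp
  | succ a ih =>
    have h5 : Commute (KK m N k) ((FF (sg (Ar N) (KK m N)) n (k + 2)) ^ a) := h3.pow_right a
    rw [pow_succ, ← mul_assoc, ih, smul_mul_assoc, h5.eq, mul_assoc, h4, mul_smul_comm, smul_smul,
      ← mul_assoc, ← h5.eq, mul_assoc, ← pow_succ, ← pow_add]
    congr 2

theorem dn_pow_F (N : ℕ) (hN : 3 ≤ N) (n k a : ℕ) (hM : k + n + 2 ≤ m) (j : ℕ) :
    WP (KK m N) (dn k j) * (FF (sg (Ar N) (KK m N)) (n + 2) k) ^ a =
      ((Ar N)⁻¹ ^ (6 * a)) • (WP (KK m N) (dn k j) * (FF (sg (Ar N) (KK m N)) n (k + 2)) ^ a) := by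
  induction j with
  | zero =>
    have h1 : WP (KK m N) (dn k 0) = KK m N k := by simp [WP, dn]
    rw [h1]
    exact K_pow_F N hN n k a hM
  | succ j ih =>
    rw [dn, WP_cons, mul_assoc, ih, mul_smul_comm, mul_assoc]

theorem comm_WP_F (N : ℕ) (hN : 3 ≤ N) (n k a : ℕ) (hM : k + n ≤ m) (L : List ℕ)
    (hL : ∀ i ∈ L, k ≤ i ∧ i + 1 < k + n) :
    Commute (WP (KK m N) L) ((FF (sg (Ar N) (KK m N)) n k) ^ a) := by
  induction L with
  | nil => exact Commute.one_left _
  | cons i L ih =>
    rw [WP_cons]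
    have hi := hL i List.mem_cons_self
    exact ((FF_comm_e (Ar_ne N hN) (Ar_d N hN) (isTL_KK m N) n k i hM hi.1 hi.2).pow_right a).mul_left
      (ih (fun k hk => hL k (List.mem_cons_of_mem _ hk)))

/-- a word of generators times full twists -/
theorem word_F (N : ℕ) (hN : 3 ≤ N) (n k a : ℕ) (hM : k + n + 2 ≤ m) (i : ℕ) (hki : k ≤ i)
    (hi : i + 1 < k + n + 2) (L : List ℕ) (hL : ∀ i ∈ L, k ≤ i ∧ i + 1 < k + n + 2) :
    WP (KK m N) (i :: L) * (FF (sg (Ar N) (KK m N)) (n + 2) k) ^ a =
      ((Ar N)⁻¹ ^ (6 * a)) • (WP (KK m N) (dn k (i - k)) * (FF (sg (Ar N) (KK m N)) n (k + 2)) ^ a *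
        WP (KK m N) (up k (i - k) ++ L)) := by
  have h1 := dn_up (m := m) N k (i - k) (by omega)
  have h2 : k + (i - k) = i := by omega
  rw [h2] at h1
  have h3 := comm_WP_F (m := m) N hN (n + 2) k a (by omega) (up k (i - k) ++ L) (by
    intro x hx
    rcases List.mem_append.1 hx with hx | hx
    · have := up_mem k (i - k) x hx; omega
    · have := hL x hx; omega)
  rw [WP_cons, ← h1, mul_assoc (WP (KK m N) (dn k (i - k))), ← WP_append, mul_assoc, h3.eq, ← mul_assoc,
    dn_pow_F N hN n k a hM, smul_mul_assoc]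

/-- the formal sum of `S` times full twists; `S2` is the expansion of the inner full twists -/
noncomputable def boxS (k : ℕ) (c1 c2 : ℤ[T;T⁻¹]) (S2 : List (ℤ[T;T⁻¹] × List ℕ)) :
    List (ℤ[T;T⁻¹] × List ℕ) → List (ℤ[T;T⁻¹] × List ℕ)
  | [] => []
  | (_, []) :: S => boxS k c1 c2 S2 S
  | (c, i :: L) :: S => (c * c1, i :: L) ::
      (mulS (c * c2) (dn k (i - k)) (up k (i - k) ++ L) S2 ++ boxS k c1 c2 S2 S)

theorem mem_boxS {k : ℕ} {c1 c2 : ℤ[T;T⁻¹]} {S2 S : List (ℤ[T;T⁻¹] × List ℕ)}
    {t : ℤ[T;T⁻¹] × List ℕ} (h : t ∈ boxS k c1 c2 S2 S) :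
    ∃ c i L, (c, i :: L) ∈ S ∧ (t = (c * c1, i :: L) ∨
      ∃ s ∈ S2, t = (c * c2 * s.1, dn k (i - k) ++ s.2 ++ (up k (i - k) ++ L))) := by
  induction S with
  | nil => simp [boxS] at h
  | cons s S ih =>
    obtain ⟨c, L⟩ := s
    cases L with
    | nil =>
      rw [boxS] at h
      obtain ⟨c', i, L, h1, h2⟩ := ih h
      exact ⟨c', i, L, List.mem_cons_of_mem _ h1, h2⟩
    | cons i L =>
      rw [boxS, List.mem_cons, List.mem_append] at h
      rcases h with h | h | h
      · exact ⟨c, i, L, List.mem_cons_self, Or.inl h⟩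
      · unfold mulS at h
        rw [List.mem_map] at h
        obtain ⟨s, hs, rfl⟩ := h
        exact ⟨c, i, L, List.mem_cons_self, Or.inr ⟨s, hs, rfl⟩⟩
      · obtain ⟨c', i', L', h1, h2⟩ := ih h
        exact ⟨c', i', L', List.mem_cons_of_mem _ h1, h2⟩

theorem evS_boxS (N : ℕ) (hN : 3 ≤ N) (n k a : ℕ) (hM : k + n + 2 ≤ m) (w : ℤ)
    (S2 : List (ℤ[T;T⁻¹] × List ℕ))
    (h2 : (FF (sg (Ar N) (KK m N)) n (k + 2)) ^ a = ev N hN (T w) • 1 + evS m N hN S2)
    (S : List (ℤ[T;T⁻¹] × List ℕ)) (hne : ∀ t ∈ S, t.2 ≠ [])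
    (hmem : ∀ t ∈ S, ∀ i ∈ t.2, k ≤ i ∧ i + 1 < k + n + 2) :
    evS m N hN (boxS k (T (-(6 * a) + w)) (T (-(6 * a))) S2 S) =
      evS m N hN S * (FF (sg (Ar N) (KK m N)) (n + 2) k) ^ a := by
  induction S with
  | nil => simp [evS, boxS]
  | cons s S ih =>
    have ih' := ih (fun t ht => hne t (List.mem_cons_of_mem _ ht))
      (fun t ht => hmem t (List.mem_cons_of_mem _ ht))
    obtain ⟨c, L⟩ := s
    cases L with
    | nil => exact absurd rfl (hne _ List.mem_cons_self)
    | cons i L =>
      have hi := hmem _ List.mem_cons_self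
      simp only at hi
      have h3 := word_F (m := m) N hN n k a hM i (hi i List.mem_cons_self).1 (hi i List.mem_cons_self).2 L
        (fun x hx => hi x (List.mem_cons_of_mem _ hx))
      have h4 := dn_up (m := m) N k (i - k) (by have := hi i List.mem_cons_self; omega)
      have h5 : k + (i - k) = i := by have := hi i List.mem_cons_self; omega
      rw [h5] at h4
      have h6 : (Ar N)⁻¹ ^ (6 * a) = ev N hN (T (-(6 * a))) := by
        rw [ev_T, zpow_neg, inv_pow]
        norm_cast
      rw [boxS, evS_cons, evS_append, evS_mulS, ih', evS_cons, add_mul, smul_mul_assoc, h3, h2, h6,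
        T_add, map_mul, map_mul, map_mul, WP_cons, ← h4, WP_append, mul_add, add_mul, mul_smul_comm,
        mul_one, smul_mul_assoc, smul_add, smul_add, smul_smul, smul_smul, smul_smul, ← add_assoc,
        mul_assoc (WP (KK m N) (dn k (i - k))) (WP (KK m N) (up k (i - k)))]
      congr 2
      rw [mul_assoc (ev N hN (c, i :: L).1)]

theorem lam_dn_up (k i : ℕ) (hki : k ≤ i) (hi : i + 1 < m) (R L : List ℕ) (hR : ∀ i ∈ R, i + 1 < m)
    (hL : ∀ i ∈ L, i + 1 < m) :
    lam m ((up k (i - k) ++ L) ++ (R ++ dn k (i - k))) = lam m (R ++ i :: L) := by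
  have hd : ∀ x ∈ dn k (i - k), x + 1 < m := fun x hx => by
    have := dn_mem k (i - k) x hx; omega
  have hu : ∀ x ∈ up k (i - k), x + 1 < m := fun x hx => by
    have := up_mem k (i - k) x hx; omega
  have h1 : ∀ x ∈ up k (i - k) ++ L, x + 1 < m := fun x hx => by
    rcases List.mem_append.1 hx with hx | hx
    · exact hu x hx
    · exact hL x hx
  have h2 : ∀ x ∈ R ++ dn k (i - k), x + 1 < m := fun x hx => by
    rcases List.mem_append.1 hx with hx | hx
    · exact hR x hx
    · exact hd x hx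
  rw [lam_comm _ _ h1 h2]
  apply lam_eq
  · intro x hx
    rcases List.mem_append.1 hx with hx | hx
    · exact h2 x hx
    · exact h1 x hx
  · intro x hx
    rcases List.mem_append.1 hx with hx | hx
    · exact hR x hx
    · rcases List.mem_cons.1 hx with rfl | hx
      · exact hi
      · exact hL x hx
  · have h4 := dn_up (m := m) 2 k (i - k) (by omega)
    have h5 : k + (i - k) = i := by omega
    rw [h5] at h4
    congr 1
    rw [WP_append, WP_append, WP_append, WP_append, WP_cons, ← h4]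
    simp only [mul_assoc]

theorem Rep.box {k n : ℕ} {U : List (Bool × ℕ)} {w : ℤ} {q : ℕ} {S : List (ℤ[T;T⁻¹] × List ℕ)}
    (hkn : k + (n + 2) ≤ m) (h : Rep m k (n + 2) U w q S) (a : ℕ) :
    ∃ S', Rep m k (n + 2) (U ++ TW true (n + 2) k a) (w + a * ((n + 2) * (n + 1))) (q - (n + 2) * a) S' := by
  obtain ⟨S1, hS1⟩ := Rep.pos (m := m) hkn (TW true (n + 2) k a) (by
    intro x hx
    refine ⟨TW_fst _ _ _ _ x hx, ?_⟩
    have h1 := TW_mem (m := k + (n + 2)) true (n + 2) k a le_rfl x hx
    refine ⟨?_, h1⟩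
    unfold TW at hx
    rw [List.mem_flatten] at hx
    obtain ⟨L, hL, hx⟩ := hx
    rw [List.mem_replicate] at hL
    rw [hL.2, List.mem_map] at hx
    obtain ⟨i, hi, rfl⟩ := hx
    have := twistWord_mem (n + 2) k i hi
    exact this.1)
  obtain ⟨S2, hS2⟩ := Rep.pos (m := m) (k := k + 2) (n := n) (by omega) (TW true n (k + 2) a) (by
    intro x hx
    refine ⟨TW_fst _ _ _ _ x hx, ?_⟩
    have h1 := TW_mem (m := k + 2 + n) true n (k + 2) a le_rfl x hx
    refine ⟨?_, h1⟩
    unfold TW at hx
    rw [List.mem_flatten] at hx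
    obtain ⟨L, hL, hx⟩ := hx
    rw [List.mem_replicate] at hL
    rw [hL.2, List.mem_map] at hx
    obtain ⟨i, hi, rfl⟩ := hx
    have := twistWord_mem n (k + 2) i hi
    exact this.1)
  have hA : ∀ N : ℕ, AA N true = Ar N := fun N => by simp [AA]
  have hw1 : ((TW true (n + 2) k a).length : ℤ) = a * ((n + 2) * (n + 1)) := by
    rw [TW_length]
    push_cast
    ring
  set w2 : ℤ := ((TW true n (k + 2) a).length : ℤ) with hw2
  have hw2' : w2 = a * (n * (n - 1)) := by
    rw [hw2, TW_length]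
    rcases Nat.eq_zero_or_pos n with h0 | h0
    · subst h0; simp
    · push_cast [Nat.cast_sub h0]
      ring
  rw [hw1] at hS1
  have hSm : ∀ t ∈ S, ∀ i ∈ t.2, k ≤ i ∧ i + 1 < k + n + 2 := fun t ht i hi => by
    have := h.mem t ht i hi; omega
  have hbig : w + 4 * (q : ℤ) + (-(6 * a) + w2) ≤
      w + a * ((n + 2) * (n + 1)) + 4 * ((q - (n + 2) * a : ℕ) : ℤ) := by
    have h1 : (q : ℤ) - (n + 2) * a ≤ ((q - (n + 2) * a : ℕ) : ℤ) := by
      have : q ≤ (q - (n + 2) * a) + (n + 2) * a := by omega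
      have h2 : (q : ℤ) ≤ ((q - (n + 2) * a : ℕ) : ℤ) + (n + 2) * a := by exact_mod_cast this
      linarith
    rw [hw2']
    nlinarith
  refine ⟨mulS (T w) [] [] S1 ++ boxS k (T (-(6 * a) + w2)) (T (-(6 * a))) S2 S, ⟨fun N hN => ?_,
    fun t ht => ?_, fun t ht => ?_, fun t ht => ?_⟩⟩
  · have e1 := MR_TW (m := m) N true (n + 2) k a
    have e2 := MR_TW (m := m) N true n (k + 2) a
    rw [hA] at e1 e2
    have e3 := hS2.eq N hN
    rw [e2] at e3
    have e4 := hS1.eq N hN
    rw [MR_append, h.eq N hN, evS_append, evS_mulS, WP_nil, one_mul, mul_one, T_add, map_mul,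
      evS_boxS N hN n k a (by omega) w2 S2 e3 S h.ne hSm, add_mul, ← e1, smul_mul_assoc,
      one_mul, mul_smul, ← add_assoc, ← smul_add, ← e4]
  · rw [List.mem_append] at ht
    rcases ht with ht | ht
    · unfold mulS at ht
      rw [List.mem_map] at ht
      obtain ⟨u, hu, rfl⟩ := ht
      simpa using hS1.ne u hu
    · obtain ⟨c, i, L, h1, h2⟩ := mem_boxS ht
      rcases h2 with rfl | ⟨s, hs, rfl⟩
      · simp
      · have := hS2.ne s hs
        simp [this]
  · rw [List.mem_append] at ht
    rcases ht with ht | ht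
    · unfold mulS at ht
      rw [List.mem_map] at ht
      obtain ⟨u, hu, rfl⟩ := ht
      simpa using hS1.mem u hu
    · obtain ⟨c, i, L, h1, h2⟩ := mem_boxS ht
      have h3 := h.mem _ h1
      simp only at h3
      rcases h2 with rfl | ⟨s, hs, rfl⟩
      · exact h3
      · intro x hx
        have hi := h3 i List.mem_cons_self
        rw [List.mem_append, List.mem_append, List.mem_append] at hx
        rcases hx with (hx | hx) | hx | hx
        · have := dn_mem k (i - k) x hx; omega
        · have := hS2.mem s hs x hx; omega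
        · have := up_mem k (i - k) x hx; omega
        · exact h3 x (List.mem_cons_of_mem _ hx)
  · rw [List.mem_append] at ht
    rcases ht with ht | ht
    · unfold mulS at ht
      rw [List.mem_map] at ht
      obtain ⟨u, hu, rfl⟩ := ht
      have h1 := (bnd_T (m := m) w).mul (by simp) (hS1.bnd u hu)
      simp only [List.nil_append, List.append_nil] at h1 ⊢
      refine h1.mono ?_
      push_cast
      have : (0 : ℤ) ≤ ((q - (n + 2) * a : ℕ) : ℤ) := by positivity
      push_cast at this ⊢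
      linarith
    · obtain ⟨c, i, L, h1, h2⟩ := mem_boxS ht
      have h3 := h.mem _ h1
      have h4 := h.bnd _ h1
      simp only at h3 h4
      have hLm : ∀ x ∈ i :: L, x + 1 < m := fun x hx => by have := (h3 x hx).2; omega
      rcases h2 with rfl | ⟨s, hs, rfl⟩
      · have h5 := h4.mul hLm (bnd_T (m := m) (-(6 * a) + w2))
        rw [List.append_nil] at h5
        exact h5.mono hbig
      · have hi := h3 i List.mem_cons_self
        have hd : ∀ x ∈ dn k (i - k), x + 1 < m := fun x hx => by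
          have := dn_mem k (i - k) x hx; omega
        have hu : ∀ x ∈ up k (i - k), x + 1 < m := fun x hx => by
          have := up_mem k (i - k) x hx; omega
        have h6 := hS2.bnd s hs
        refine Bnd.mono ?_ hbig
        intro R hR
        have e1 := h4 R hR
        have h7 : ∀ x ∈ up k (i - k) ++ L, x + 1 < m := fun x hx => by
          rcases List.mem_append.1 hx with hx | hx
          · exact hu x hx
          · exact hLm x (List.mem_cons_of_mem _ hx)
        have h8 : ∀ x ∈ R ++ dn k (i - k), x + 1 < m := fun x hx => by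
          rcases List.mem_append.1 hx with hx | hx
          · exact hR x hx
          · exact hd x hx
        have e2 := h6 ((up k (i - k) ++ L) ++ (R ++ dn k (i - k))) (by
          intro x hx
          rcases List.mem_append.1 hx with hx | hx
          · exact h7 x hx
          · exact h8 x hx)
        rw [lam_dn_up k i hi.1 (hLm i List.mem_cons_self) R L hR
          (fun x hx => hLm x (List.mem_cons_of_mem _ hx))] at e2
        have e3 : lam m ((up k (i - k) ++ L) ++ (R ++ dn k (i - k)) ++ s.2) =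
            lam m (R ++ (dn k (i - k) ++ s.2 ++ (up k (i - k) ++ L))) := by
          rw [List.append_assoc, lam_comm (up k (i - k) ++ L) (R ++ dn k (i - k) ++ s.2) h7 (by
            intro x hx
            rcases List.mem_append.1 hx with hx | hx
            · exact h8 x hx
            · have := (hS2.mem s hs x hx).2; omega)]
          simp only [List.append_assoc]
        rw [e3] at e2
        have e4 := (e1.mul (dg_T (-(6 * a)))).mul e2
        refine e4.mono (le_of_eq ?_)
        push_cast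
        ring

end Pool.Agent.N569.TW
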