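import Pool.Agent.TH561.PB.Twist

/-!
# Braid words with full twists on bundles of strands
-/

set_option autoImplicit false

namespace Pool.Agent.N569.TW

open Pool.Agent.H891R2.Jones Pool.Agent.W639.RB Pool.Agent.TH561 Finset LaurentPolynomial

/-- braid words in which full twists on bundles of neighbouring strands are marked: `letter true i` is the
generator `σ_i`, `letter false i` its inverse, and `box n k a u` is the word `u` followed by `a` full twists of
the bundle of the `n` strands `k, …, k + n - 1`; `u` is again a word of this kind -/
inductive Tw : Type
  | nil : Tw
  | letter (b : Bool) (i : ℕ) (t : Tw) : Tw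
  | box (n k a : ℕ) (u t : Tw) : Tw

namespace Tw

/-- the word in the letters `σ_i^{±1}`; `TW true n k a` consists of the `a n (n - 1)` letters of `a` positive full
twists of the strands `k, …, k + n - 1` -/
def word : Tw → List (Bool × ℕ)
  | nil => []
  | letter b i t => (b, i) :: t.word
  | box n k a u t => u.word ++ TW true n k a ++ t.word

/-- all letters and boxes are on the strands `k, …, k + n - 1`, the inner word of a box is on the strands of the
box, and every box has at least three strands and at least one full twist -/
def Fits : Tw → ℕ → ℕ → Prop
  | nil, _, _ => True
  | letter _ i t, n, k => k ≤ i ∧ i + 1 < k + n ∧ t.Fits n k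
  | box n' k' a u t, n, k =>
    3 ≤ n' ∧ 1 ≤ a ∧ k ≤ k' ∧ k' + n' ≤ k + n ∧ u.Fits n' k' ∧ t.Fits n k

/-- the number of the negative letters which are left over: `a` full twists on `n` strands pay for up to `n a`
negative letters of the inner word of their box -/
def debt : Tw → ℕ
  | nil => 0
  | letter b _ t => (if b then 0 else 1) + t.debt
  | box n _ a u t => (u.debt - n * a) + t.debt

/-- the number of boxes -/
def boxes : Tw → ℕ
  | nil => 0
  | letter _ _ t => t.boxes
  | box _ _ _ u t => 1 + u.boxes + t.boxes

/-- the word with every crossing changed (`s = false`), or the word itself (`s = true`) -/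
def signed (s : Bool) (t : Tw) : List (Bool × ℕ) := if s then t.word else t.word.map flipL

/-- the word in the letters of a braid word without boxes -/
def ofList : List (Bool × ℕ) → Tw
  | [] => nil
  | x :: l => letter x.1 x.2 (ofList l)

end Tw

end Pool.Agent.N569.TW
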