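import Pool.Agent.N569.TW.Main

/-!
# Closed braids with full twists on bundles of strands
-/

set_option autoImplicit false

namespace Pool.Agent.N569.TW

open Pool.Agent.H891R2.Jones Pool.Agent.W639.RB Pool.Agent.TH561 Finset LaurentPolynomial

variable {m : ℕ}

theorem expo_TW (n k a : ℕ) (hn : 1 ≤ n) : expo (TW true n k a) = a * (n * (n - 1)) := by
  rw [expo_pos _ (TW_fst true n k a), TW_length]
  push_cast [Nat.cast_sub hn]
  ring

namespace Tw

theorem word_mem (t : Tw) : ∀ n k, t.Fits n k → ∀ x ∈ t.word, k ≤ x.2 ∧ x.2 + 1 < k + n := by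
  induction t with
  | nil => intro n k _ x hx; simp [word] at hx
  | letter b i t ih =>
    rintro n k ⟨h1, h2, h3⟩ x hx
    rw [word, List.mem_cons] at hx
    rcases hx with rfl | hx
    · exact ⟨h1, h2⟩
    · exact ih n k h3 x hx
  | box n' k' a u t ihu iht =>
    rintro n k ⟨h1, h2, h3, h4, h5, h6⟩ x hx
    rw [word, List.mem_append, List.mem_append] at hx
    rcases hx with (hx | hx) | hx
    · have := ihu n' k' h5 x hx; omega
    · have e1 := TW_mem (m := k' + n') true n' k' a le_rfl x hx
      unfold TW at hx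
      rw [List.mem_flatten] at hx
      obtain ⟨L, hL, hx⟩ := hx
      rw [List.mem_replicate] at hL
      rw [hL.2, List.mem_map] at hx
      obtain ⟨i, hi, rfl⟩ := hx
      have e2 := (twistWord_mem n' k' i hi).1
      simp only at e1 ⊢
      omega
    · exact iht n k h6 x hx

theorem rep (t : Tw) : ∀ n k, t.Fits n k → k + n ≤ m →
    ∃ S, Rep m k n t.word (expo t.word) t.debt S := by
  induction t with
  | nil => intro n k _ _; exact ⟨[], by simpa [word, expo, debt] using Rep.nil m k n⟩
  | letter b i t ih =>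
    rintro n k ⟨h1, h2, h3⟩ hm
    obtain ⟨S, hS⟩ := ih n k h3 hm
    obtain ⟨S1, hS1⟩ := Rep.letter hm b i h1 h2
    obtain ⟨S2, hS2⟩ := hS1.append hm hS
    refine ⟨S2, ?_⟩
    rw [word, expo_cons, debt]
    simp only [sgn]
    exact hS2
  | box n' k' a u t ihu iht =>
    rintro n k ⟨h1, h2, h3, h4, h5, h6⟩ hm
    obtain ⟨S, hS⟩ := ihu n' k' h5 (by omega)
    obtain ⟨S', hS'⟩ := iht n k h6 hm
    obtain ⟨p, rfl⟩ : ∃ p, n' = p + 2 := ⟨n' - 2, by omega⟩
    obtain ⟨S1, hS1⟩ := hS.box (by omega) a
    obtain ⟨S2, hS2⟩ := (hS1.mono (k' := k) (n' := n) h3 h4 le_rfl).append hm hS'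
    refine ⟨S2, ?_⟩
    rw [word, expo_append, expo_append, expo_TW _ _ _ (by omega), debt]
    have e1 : ((p + 2 : ℕ) : ℤ) * (((p + 2 : ℕ) : ℤ) - 1) = ((p : ℤ) + 2) * (p + 1) := by
      push_cast; ring
    rw [e1]
    exact hS2

/-- the generators which occur with positive sign -/
def cols : Tw → Finset ℕ
  | nil => ∅
  | letter b i t => if b then insert i t.cols else t.cols
  | box n k _ _ t => Finset.Ico k (k + n - 1) ∪ t.cols

theorem cols_le (t : Tw) : ∀ n k, t.Fits n k → (t.cols.card : ℤ) + t.boxes ≤ expo t.word + t.debt := by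
  induction t with
  | nil => intro n k _; simp [cols, boxes, word, expo, debt]
  | letter b i t ih =>
    rintro n k ⟨h1, h2, h3⟩
    have h4 := ih n k h3
    rw [cols, boxes, word, expo_cons, debt]
    cases b
    · simp only [sgn, Bool.false_eq_true, if_false]
      push_cast
      linarith
    · simp only [sgn, if_true]
      have h5 := Finset.card_insert_le i t.cols
      have h6 : ((insert i t.cols).card : ℤ) ≤ t.cols.card + 1 := by exact_mod_cast h5
      push_cast
      linarith
  | box n' k' a u t ihu iht =>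
    rintro n k ⟨h1, h2, h3, h4, h5, h6⟩
    have h7 := ihu n' k' h5
    have h8 := iht n k h6
    rw [cols, boxes, word, expo_append, expo_append, expo_TW _ _ _ (by omega), debt]
    have h9 := Finset.card_union_le (Finset.Ico k' (k' + n' - 1)) t.cols
    rw [Nat.card_Ico] at h9
    have h10 : ((Finset.Ico k' (k' + n' - 1) ∪ t.cols).card : ℤ) ≤ (n' : ℤ) - 1 + t.cols.card := by
      have : (Finset.Ico k' (k' + n' - 1) ∪ t.cols).card ≤ n' - 1 + t.cols.card := by omega
      have h11 : ((Finset.Ico k' (k' + n' - 1) ∪ t.cols).card : ℤ) ≤ ((n' - 1 : ℕ) : ℤ) + t.cols.card := by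
        exact_mod_cast this
      rw [Nat.cast_sub (by omega)] at h11
      simpa using h11
    have h12 : (u.debt : ℤ) - n' * a ≤ ((u.debt - n' * a : ℕ) : ℤ) := by
      have : u.debt ≤ (u.debt - n' * a) + n' * a := by omega
      have h13 : (u.debt : ℤ) ≤ ((u.debt - n' * a : ℕ) : ℤ) + n' * a := by exact_mod_cast this
      linarith
    have h14 : (n' : ℤ) ≤ a * (n' * (n' - 2)) := by
      have e1 : (3 : ℤ) ≤ n' := by exact_mod_cast h1
      have e2 : (1 : ℤ) ≤ a := by exact_mod_cast h2
      have e3 : (n' : ℤ) * 1 ≤ n' * (n' - 2) := by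
        apply mul_le_mul_of_nonneg_left _ (by linarith)
        linarith
      nlinarith
    push_cast at h12 ⊢
    have h15 : (a : ℤ) * (n' * (n' - 1)) = a * (n' * (n' - 2)) + n' * a := by ring
    have h16 : (0 : ℤ) ≤ u.cols.card := by positivity
    rw [h15]
    linarith

theorem mem_cols (t : Tw) : ∀ n k, t.Fits n k → t.debt = 0 → ∀ x ∈ t.word, x.2 ∈ t.cols := by
  induction t with
  | nil => intro n k _ _ x hx; simp [word] at hx
  | letter b i t ih =>
    rintro n k ⟨h1, h2, h3⟩ hd x hx
    rw [debt] at hd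
    rw [word, List.mem_cons] at hx
    rw [cols]
    cases b
    · simp at hd
    · rw [if_pos rfl, Finset.mem_insert]
      rcases hx with rfl | hx
      · exact Or.inl rfl
      · exact Or.inr (ih n k h3 (by simpa using hd) x hx)
  | box n' k' a u t ihu iht =>
    rintro n k ⟨h1, h2, h3, h4, h5, h6⟩ hd x hx
    rw [debt] at hd
    rw [cols, Finset.mem_union, Finset.mem_Ico]
    rw [word, List.mem_append] at hx
    rcases hx with hx | hx
    · left
      have h7 : x ∈ (box n' k' a u nil).word := by
        rw [word]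
        exact List.mem_append_left _ hx
      have h8 := word_mem (box n' k' a u nil) n' k' ⟨h1, h2, le_rfl, le_rfl, h5, trivial⟩ x h7
      omega
    · right
      exact iht n k h6 (by omega) x hx

theorem cols_mem (t : Tw) : ∀ n k, t.Fits n k → ∀ i ∈ t.cols, i + 1 < k + n := by
  induction t with
  | nil => intro n k _ i hi; simp [cols] at hi
  | letter b i t ih =>
    rintro n k ⟨h1, h2, h3⟩ j hj
    rw [cols] at hj
    cases b
    · exact ih n k h3 j (by simpa using hj)
    · rw [if_pos rfl, Finset.mem_insert] at hj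
      rcases hj with rfl | hj
      · exact h2
      · exact ih n k h3 j hj
  | box n' k' a u t ihu iht =>
    rintro n k ⟨h1, h2, h3, h4, h5, h6⟩ j hj
    rw [cols, Finset.mem_union, Finset.mem_Ico] at hj
    rcases hj with hj | hj
    · omega
    · exact iht n k h6 j hj

/-- a word without boxes and debt is positive, and every generator occurs once if there are no more letters than
generators -/
theorem simple (t : Tw) (hb : t.boxes = 0) (hd : t.debt = 0) :
    (∀ x ∈ t.word, x.1 = true) ∧ t.cols = (t.word.map Prod.snd).toFinset := by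
  induction t with
  | nil => exact ⟨fun x hx => by simp [word] at hx, by simp [cols, word]⟩
  | letter b i t ih =>
    rw [debt] at hd
    rw [boxes] at hb
    obtain ⟨h1, h2⟩ := ih hb (by omega)
    cases b
    · simp at hd
    · refine ⟨fun x hx => ?_, ?_⟩
      · rw [word, List.mem_cons] at hx
        rcases hx with rfl | hx
        · rfl
        · exact h1 x hx
      · rw [cols, if_pos rfl, h2, word]
        simp
  | box n' k' a u t ihu iht =>
    rw [boxes] at hb
    omega

end Tw

/-- the states contain at least as many curves as the closure has pieces -/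
theorem dvd_bracket (hm : 0 < m) (W : List (Bool × ℕ)) (C : Finset ℕ) (hC : ∀ x ∈ W, x.2 ∈ C)
    (hCm : ∀ i ∈ C, i + 1 < m) :
    dl ^ (m - #C) ∣ dl * (draw (braidClosure m) W).close.bracket := by
  have hW : ∀ x ∈ W, x.2 + 1 < m := fun x hx => hCm _ (hC x hx)
  have hlet : ∀ W : List (Bool × ℕ), (∀ x ∈ W, x.2 ∈ C) → ∀ t ∈ terms W, ∀ i ∈ t.2, i ∈ C := by
    intro W
    induction W with
    | nil => intro _ t ht; simp [terms] at ht; subst ht; simp
    | cons x W ih =>
      intro hx t ht
      rw [terms, List.mem_append, List.mem_map, List.mem_map] at ht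
      rcases ht with ⟨u, hu, rfl⟩ | ⟨u, hu, rfl⟩
      · exact ih (fun y hy => hx y (List.mem_cons_of_mem _ hy)) u hu
      · intro i hi
        rcases List.mem_cons.1 hi with rfl | hi
        · exact hx x List.mem_cons_self
        · exact ih (fun y hy => hx y (List.mem_cons_of_mem _ hy)) u hu i hi
  rw [bracket_terms hm W hW]
  refine List.dvd_sum fun y hy => ?_
  rw [List.mem_map] at hy
  obtain ⟨t, ht, rfl⟩ := hy
  have h1 := lam_ge t.2 (terms_mem W hW t ht) C (hlet W hC t ht) hCm
  exact Dvd.dvd.mul_left (pow_dvd_pow _ (by omega)) _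

end Pool.Agent.N569.TW
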