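import Pool.Agent.N569.TW.Fin

/-!
# The Jones polynomial of closed braids with full twists on bundles of strands
-/

set_option autoImplicit false

namespace Pool.Agent.N569.TW

open Pool.Agent.H891R2.Jones Pool.Agent.W639.RB Pool.Agent.TH561 Finset LaurentPolynomial

variable {m : ℕ}

theorem closure_closed (m : ℕ) : (braidClosure m).close.IsClosed := by
  classical
  rw [closed_iff]
  have h : ∀ x : Fin m, (univ.filter (fun j : Fin m => j = x)).card = 1 := by
    intro x
    rw [Finset.filter_eq' univ x, if_pos (Finset.mem_univ _), Finset.card_singleton]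
  refine ⟨fun x => ?_, fun x => ?_⟩
  · simp only [Sst, braidClosure, id, List.map_nil, List.sum_nil]
    simp <;> convert h x
  · simp only [Sst, braidClosure, Outer.rev, id, List.map_nil, List.sum_nil]
    simp <;> convert h x

theorem writhe_eq (W : List (Bool × ℕ)) (hW : ∀ x ∈ W, x.2 + 1 < m) :
    (draw (braidClosure m) W).close.writhe = expo W := by
  obtain ⟨_, howr⟩ := draw_up W (braidClosure m) hW (fun _ => rfl)
  rw [close_writhe, howr]
  have : owr (braidClosure m) = 0 := rfl
  rw [this, zero_add]

/-- evaluation at `A = 1` -/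
noncomputable def at1 : ℤ[T;T⁻¹] →+* ℤ := LaurentPolynomial.eval₂ (RingHom.id ℤ) 1

theorem at1_T (n : ℤ) : at1 (T n) = 1 := by
  unfold at1
  rw [LaurentPolynomial.eval₂_T]
  simp

theorem at1_dl : at1 dl = -2 := by
  unfold dl
  rw [map_sub, map_neg, at1_T, at1_T]
  norm_num

/-! ### change of all crossings -/

theorem inv_dl : invert dl = dl := by
  unfold dl
  rw [map_sub, map_neg, invert_T, invert_T]
  ring_nf

theorem expo_flip (W : List (Bool × ℕ)) : expo (W.map flipL) = -expo W := by
  induction W with
  | nil => simp [expo]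
  | cons x W ih =>
    have hx : sgn (flipL x) = -sgn x := by
      obtain ⟨b, i⟩ := x
      cases b <;> simp [sgn, flipL]
    rw [List.map_cons, expo_cons, expo_cons, ih, hx]
    ring

theorem flip_mem (W : List (Bool × ℕ)) (hW : ∀ x ∈ W, x.2 + 1 < m) : ∀ x ∈ W.map flipL, x.2 + 1 < m := by
  intro x hx
  rw [List.mem_map] at hx
  obtain ⟨y, hy, rfl⟩ := hx
  exact hW y hy

theorem bracket_flip (hm : 0 < m) (W : List (Bool × ℕ)) (hW : ∀ x ∈ W, x.2 + 1 < m) :
    (draw (braidClosure m) (W.map flipL)).close.bracket =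
      invert (draw (braidClosure m) W).close.bracket := by
  have h1 := bracket_terms hm W hW
  have h2 := bracket_terms hm (W.map flipL) (flip_mem W hW)
  have h3 : dl * (draw (braidClosure m) (W.map flipL)).close.bracket =
      dl * invert (draw (braidClosure m) W).close.bracket := by
    have h4 : dl * invert (draw (braidClosure m) W).close.bracket =
        invert (dl * (draw (braidClosure m) W).close.bracket) := by
      rw [map_mul, inv_dl]
    rw [h4, h1, h2, terms_flip, List.map_map, map_list_sum, List.map_map]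
    congr 1
    apply List.map_congr_left
    intro t _
    simp only [Function.comp_apply]
    rw [map_mul, map_pow, inv_dl, invert_T]
  refine mul_left_cancel₀ ?_ h3
  intro h0
  have := at1_dl
  rw [h0, map_zero] at this
  norm_num at this

theorem fPoly_flip (hm : 0 < m) (W : List (Bool × ℕ)) (hW : ∀ x ∈ W, x.2 + 1 < m) :
    (draw (braidClosure m) (W.map flipL)).close.fPoly =
      invert (draw (braidClosure m) W).close.fPoly := by
  unfold Diagram.fPoly
  rw [writhe_eq W hW, writhe_eq _ (flip_mem W hW), expo_flip, bracket_flip hm W hW, map_mul, map_mul,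
    invert_T]
  have h1 : -3 * -expo W = -(-3 * expo W) := by ring
  rw [h1]
  congr 2
  simp only [even_neg]
  split_ifs
  · rw [map_one]
  · rw [map_neg, map_one]

/-! ### the theorem -/

/-- the main theorem for positive sign -/
theorem pos_main (hm : 0 < m) (t : Tw) (ht : t.Fits m 0) (hd : t.debt = 0) :
    ((draw (braidClosure m) t.word).close.fPoly.coeff (2 * (m - 1) - 2 * expo t.word) = 1 ∨
      (draw (braidClosure m) t.word).close.fPoly.coeff (2 * (m - 1) - 2 * expo t.word) = -1) ∧
    Dg (draw (braidClosure m) t.word).close.fPoly (2 * (m - 1) - 2 * expo t.word) ∧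
    ∀ c : ℕ, (draw (braidClosure m) t.word).close.fPoly = dl ^ c →
      t.boxes = 0 ∧ (∀ x ∈ t.word, x.1 = true) ∧ (t.word.map Prod.snd).Nodup ∧
        m = t.word.length + c + 1 := by
  have hW : ∀ x ∈ t.word, x.2 + 1 < m := fun x hx => by
    have := (t.word_mem m 0 ht x hx).2; omega
  obtain ⟨S, hS⟩ := t.rep (m := m) m 0 ht (by omega)
  rw [hd] at hS
  obtain ⟨h1, h2⟩ := top_bracket hm t.word hW hS
  have hwr := writhe_eq t.word hW
  set D := (draw (braidClosure m) t.word).close with hD
  set w := expo t.word with hw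
  have hf : ∀ n, D.fPoly.coeff n = (if Even w then 1 else -1) * D.bracket.coeff (n + 3 * w) := by
    intro n
    unfold Diagram.fPoly
    rw [hwr]
    have h3 : (T (-3 * w) * D.bracket).coeff n = D.bracket.coeff (n + 3 * w) := by
      rw [coeff_T_mul]
      congr 1
      ring
    split_ifs
    · rw [one_mul, one_mul, h3]
    · have h4 : (-1 * T (-3 * w) * D.bracket : ℤ[T;T⁻¹]) = -(T (-3 * w) * D.bracket) := by ring
      rw [h4, AddMonoidAlgebra.coeff_neg, Finsupp.neg_apply, h3]
      ring
  have hc : D.fPoly.coeff (2 * (m - 1) - 2 * w) = 1 ∨ D.fPoly.coeff (2 * (m - 1) - 2 * w) = -1 := by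
    rw [hf]
    have h3 : 2 * ((m : ℤ) - 1) - 2 * w + 3 * w = w + 2 * (m - 1) := by ring
    rw [h3, h1]
    rcases Nat.even_or_odd (m + 1) with h4 | h4
    · rw [h4.neg_one_pow]
      split_ifs <;> simp
    · rw [h4.neg_one_pow]
      split_ifs <;> simp
  have hdg : Dg D.fPoly (2 * (m - 1) - 2 * w) := by
    intro n hn
    rw [hf, h2 _ (by linarith), mul_zero]
  refine ⟨hc, hdg, fun c hfc => ?_⟩
  -- the number of the components
  have hwc : 2 * ((m : ℤ) - 1) - 2 * w = 2 * c := by
    rw [hfc] at hc hdg
    have h5 := dg_dl c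
    have h6 := coeff_dl_pow c
    by_contra hne
    rcases lt_or_gt_of_ne hne with h7 | h7
    · have h8 := hdg _ h7
      rw [h6] at h8
      exact absurd h8 (by
        rcases Nat.even_or_odd c with h9 | h9
        · rw [h9.neg_one_pow]; norm_num
        · rw [h9.neg_one_pow]; norm_num)
    · have h8 := h5 _ h7
      rw [h8] at hc
      rcases hc with hc | hc <;> norm_num at hc
  -- the number of the pieces
  have hcol := t.cols_le m 0 ht
  rw [hd, ← hw] at hcol
  have hdvd := dvd_bracket hm t.word t.cols (t.mem_cols m 0 ht hd) (fun i hi => by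
    have := t.cols_mem m 0 ht i hi; omega)
  rw [← hD] at hdvd
  have hpieces : m - #t.cols ≤ c + 1 := by
    by_contra hcon
    obtain ⟨g, hg⟩ := hdvd
    have h7 : at1 (dl * D.bracket) = (-2) ^ (m - #t.cols) * at1 g := by
      rw [hg, map_mul, map_pow, at1_dl]
    have h8 : at1 D.fPoly = (-2) ^ c := by rw [hfc, map_pow, at1_dl]
    have h9 : at1 D.bracket = (-2) ^ c ∨ at1 D.bracket = -(-2) ^ c := by
      unfold Diagram.fPoly at h8
      rw [map_mul, map_mul, at1_T, mul_one] at h8
      split_ifs at h8
      · rw [map_one, one_mul] at h8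
        exact Or.inl h8
      · rw [map_neg, map_one, neg_mul, one_mul] at h8
        right
        rw [← h8]
        ring
    rw [map_mul, at1_dl] at h7
    obtain ⟨r, hr⟩ : ∃ r, m - #t.cols = (c + 1) + (r + 1) := ⟨m - #t.cols - (c + 1) - 1, by omega⟩
    rw [hr, pow_add] at h7
    have h10 : ((-2 : ℤ)) ^ (c + 1) ≠ 0 := pow_ne_zero _ (by norm_num)
    rcases h9 with h9 | h9
    · rw [h9, ← pow_succ'] at h7
      have h11 : (1 : ℤ) = (-2) ^ (r + 1) * at1 g := by
        apply mul_left_cancel₀ h10
        rw [mul_one, ← mul_assoc]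
        exact h7
      rw [pow_succ'] at h11
      have : (2 : ℤ) ∣ 1 := ⟨-((-2) ^ r * at1 g), by rw [h11]; ring⟩
      omega
    · rw [h9, mul_neg, ← pow_succ'] at h7
      have h11 : (-1 : ℤ) = (-2) ^ (r + 1) * at1 g := by
        apply mul_left_cancel₀ h10
        rw [mul_neg, mul_one, ← mul_assoc]
        exact h7
      rw [pow_succ'] at h11
      have : (2 : ℤ) ∣ -1 := ⟨-((-2) ^ r * at1 g), by rw [h11]; ring⟩
      omega
  have hb : t.boxes = 0 := by
    have : (m : ℤ) - #t.cols ≤ c + 1 := by
      have h1 : m ≤ c + 1 + #t.cols := by omega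
      have h2 : (m : ℤ) ≤ c + 1 + #t.cols := by exact_mod_cast h1
      linarith
    push_cast at hcol
    have h2 : (t.boxes : ℤ) ≤ 0 := by linarith
    omega
  obtain ⟨hpos, hcols⟩ := t.simple hb hd
  have hlen : w = t.word.length := expo_pos _ hpos
  refine ⟨hb, hpos, ?_, by omega⟩
  have h13 : #t.cols = t.word.length := by
    have h1 : m ≤ c + 1 + #t.cols := by omega
    push_cast at hcol
    omega
  rw [hcols] at h13
  have h14 : (t.word.map Prod.snd).toFinset.card = (t.word.map Prod.snd).length := by
    rw [h13, List.length_map]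
  exact Multiset.toFinset_card_eq_card_iff_nodup.1 h14

/-- the sign of the twists -/
def eps (s : Bool) : ℤ := if s then 1 else -1

theorem invert_eq_iff {f : ℤ[T;T⁻¹]} (c : ℕ) : invert f = dl ^ c ↔ f = dl ^ c := by
  have h : invert (dl ^ c) = dl ^ c := by rw [map_pow, inv_dl]
  constructor
  · intro h1
    have h2 := congrArg invert h1
    rw [h] at h2
    rw [← h2]
    ext n
    simp
  · intro h1
    rw [h1, h]

theorem main (hm : 0 < m) (s : Bool) (t : Tw) (ht : t.Fits m 0) (hd : t.debt = 0) :
    (draw (braidClosure m) (t.signed s)).close.IsClosed ∧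
    (draw (braidClosure m) (t.signed s)).close.writhe = eps s * expo t.word ∧
    ((draw (braidClosure m) (t.signed s)).close.fPoly.coeff (eps s * (2 * (m - 1) - 2 * expo t.word)) = 1 ∨
      (draw (braidClosure m) (t.signed s)).close.fPoly.coeff
        (eps s * (2 * (m - 1) - 2 * expo t.word)) = -1) ∧
    (∀ n, 2 * (m - 1) - 2 * expo t.word < n →
      (draw (braidClosure m) (t.signed s)).close.fPoly.coeff (eps s * n) = 0) ∧
    ∀ c : ℕ, (draw (braidClosure m) (t.signed s)).close.fPoly = dl ^ c →
      t.boxes = 0 ∧ (∀ x ∈ t.word, x.1 = true) ∧ (t.word.map Prod.snd).Nodup ∧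
        m = t.word.length + c + 1 := by
  have hW : ∀ x ∈ t.word, x.2 + 1 < m := fun x hx => by
    have := (t.word_mem m 0 ht x hx).2; omega
  obtain ⟨h1, h2, h3⟩ := pos_main hm t ht hd
  cases s
  · have e1 : t.signed false = t.word.map flipL := by simp [Tw.signed]
    have e2 : eps false = -1 := by simp [eps]
    rw [e1, e2, fPoly_flip hm t.word hW]
    refine ⟨draw_closed _ _ (flip_mem _ hW) (fun _ => rfl) (closure_closed m), ?_, ?_, ?_, ?_⟩
    · rw [writhe_eq _ (flip_mem _ hW), expo_flip]
      ring
    · rw [invert_apply]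
      have : -(-1 * (2 * ((m : ℤ) - 1) - 2 * expo t.word)) = 2 * (m - 1) - 2 * expo t.word := by ring
      rw [this]
      exact h1
    · intro n hn
      rw [invert_apply]
      have : -(-1 * n) = n := by ring
      rw [this]
      exact h2 n hn
    · intro c hc
      exact h3 c ((invert_eq_iff c).1 hc)
  · have e1 : t.signed true = t.word := by simp [Tw.signed]
    have e2 : eps true = 1 := by simp [eps]
    rw [e1, e2, one_mul, one_mul]
    refine ⟨draw_closed _ _ hW (fun _ => rfl) (closure_closed m), writhe_eq _ hW, h1, ?_, h3⟩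
    intro n hn
    rw [one_mul]
    exact h2 n hn

end Pool.Agent.N569.TW
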