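import Pool.Agent.TH561.PB.Twist

/-!
# The number of closed curves of a word changes by at most one if a letter is added
-/

set_option autoImplicit false

namespace Pool.Agent.N569.TW

open Pool.Agent.H891R2.Jones Pool.Agent.W639.RB Pool.Agent.TH561 Finset LaurentPolynomial

section lam

variable {m : ℕ}

theorem upd_add (p q : Fin m) (x x' : Fin m → Fin 2) (c c' : Fin 2) :
    upd (x + x') p q (c + c') = upd x p q c + upd x' p q c' := by
  funext j
  simp only [upd, Pi.add_apply]
  split_ifs <;> rfl

theorem upd_neg (p q : Fin m) (x : Fin m → Fin 2) (c : Fin 2) :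
    upd (-x) p q (-c) = -upd x p q c := by
  funext j
  simp only [upd, Pi.neg_apply]
  split_ifs <;> rfl

theorem upd_zero (p q : Fin m) : upd (0 : Fin m → Fin 2) p q 0 = 0 := by
  funext j
  simp only [upd, Pi.zero_apply]
  split_ifs <;> rfl

/-- the matrix of a word of generators is a multiple of the indicator function of a subgroup -/
theorem WP_lin (L : List ℕ) (hL : ∀ i ∈ L, i + 1 < m) :
    ∃ (V : AddSubgroup ((Fin m → Fin 2) × (Fin m → Fin 2))) (κ : ℕ), ∀ x y,
      ((x, y) ∈ V → WP (KK m 2) L x y = κ) ∧ ((x, y) ∉ V → WP (KK m 2) L x y = 0) := by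
  classical
  induction L with
  | nil =>
    refine ⟨(AddMonoidHom.fst (Fin m → Fin 2) (Fin m → Fin 2) -
      AddMonoidHom.snd (Fin m → Fin 2) (Fin m → Fin 2)).ker, 1, fun x y => ⟨fun h => ?_, fun h => ?_⟩⟩
    · rw [AddMonoidHom.mem_ker, AddMonoidHom.sub_apply, sub_eq_zero] at h
      have h' : x = y := h
      rw [WP_nil, Matrix.one_apply, if_pos h', Nat.cast_one]
    · rw [AddMonoidHom.mem_ker, AddMonoidHom.sub_apply, sub_eq_zero] at h
      have h' : ¬ x = y := h
      rw [WP_nil, Matrix.one_apply, if_neg h']
  | cons i L ih =>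
    have hi : i + 1 < m := hL i List.mem_cons_self
    obtain ⟨V, κ, hV⟩ := ih (fun k hk => hL k (List.mem_cons_of_mem _ hk))
    set p : Fin m := ⟨i, Nat.lt_of_succ_lt hi⟩ with hp
    set q : Fin m := ⟨i+1, hi⟩ with hq
    refine ⟨{ carrier := {z | z.1 p = z.1 q ∧ ∃ c, (upd z.1 p q c, z.2) ∈ V}
              add_mem' := ?_
              zero_mem' := ?_
              neg_mem' := ?_ }, κ * #{c : Fin 2 | (upd 0 p q c, (0 : Fin m → Fin 2)) ∈ V}, ?_⟩
    · rintro ⟨x, y⟩ ⟨x', y'⟩ ⟨h1, c, h2⟩ ⟨h3, c', h4⟩
      refine ⟨?_, c + c', ?_⟩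
      · show x p + x' p = x q + x' q
        rw [show x p = x q from h1, show x' p = x' q from h3]
      · show (upd (x + x') p q (c + c'), y + y') ∈ V
        rw [upd_add]
        exact V.add_mem h2 h4
    · refine ⟨rfl, 0, ?_⟩
      show (upd (0 : Fin m → Fin 2) p q 0, (0 : Fin m → Fin 2)) ∈ V
      rw [upd_zero]
      exact V.zero_mem
    · rintro ⟨x, y⟩ ⟨h1, c, h2⟩
      refine ⟨?_, -c, ?_⟩
      · show -x p = -x q
        rw [show x p = x q from h1]
      · show (upd (-x) p q (-c), -y) ∈ V
        rw [upd_neg]
        exact V.neg_mem h2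
    · have hval : ∀ x y, WP (KK m 2) L x y = if (x, y) ∈ V then (κ : ℂ) else 0 := by
        intro x y
        split_ifs with h
        · exact (hV x y).1 h
        · exact (hV x y).2 h
      have hsum : ∀ x y, ∑ c, WP (KK m 2) L (upd x p q c) y =
          (κ : ℂ) * #{c : Fin 2 | (upd x p q c, y) ∈ V} := by
        intro x y
        simp only [hval]
        rw [← Finset.sum_filter, Finset.sum_const, nsmul_eq_mul, mul_comm]
      intro x y
      rw [WP_cons, KK_mul_apply i hi]
      constructor
      · rintro ⟨h1, c0, h2⟩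
        rw [if_pos h1, hsum]
        push_cast
        congr 2
        refine Finset.card_bij (fun c _ => c - c0) ?_ ?_ ?_
        · intro c hc
          rw [Finset.mem_filter] at hc ⊢
          refine ⟨Finset.mem_univ _, ?_⟩
          have h3 := V.sub_mem hc.2 h2
          have h4 : ((upd x p q c, y) : (Fin m → Fin 2) × (Fin m → Fin 2)) - (upd (x, y).1 p q c0, (x, y).2) =
              (upd 0 p q (c - c0), 0) := by
            have h5 : upd x p q c = upd (0 : Fin m → Fin 2) p q (c - c0) + upd x p q c0 := by
              rw [← upd_add, zero_add, sub_add_cancel]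
            show (upd x p q c - upd x p q c0, y - y) = _
            rw [h5, add_sub_cancel_right, sub_self]
          rw [h4] at h3
          exact h3
        · intro a _ b _ hab
          exact sub_left_injective hab
        · intro c hc
          rw [Finset.mem_filter] at hc
          refine ⟨c + c0, ?_, add_sub_cancel_right _ _⟩
          rw [Finset.mem_filter]
          refine ⟨Finset.mem_univ _, ?_⟩
          have h3 := V.add_mem hc.2 h2
          have h4 : ((upd (0 : Fin m → Fin 2) p q c, (0 : Fin m → Fin 2)) : (Fin m → Fin 2) × (Fin m → Fin 2)) +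
              (upd (x, y).1 p q c0, (x, y).2) = (upd x p q (c + c0), y) := by
            show (upd (0 : Fin m → Fin 2) p q c + upd x p q c0, 0 + y) = _
            rw [← upd_add, zero_add, zero_add]
          rw [h4] at h3
          exact h3
      · intro hn
        split_ifs with h1
        · rw [hsum]
          have h2 : #{c : Fin 2 | (upd x p q c, y) ∈ V} = 0 := by
            rw [Finset.card_eq_zero, Finset.filter_eq_empty_iff]
            intro c _ hc
            exact hn ⟨h1, c, hc⟩
          rw [h2, Nat.cast_zero, mul_zero]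
        · rfl

theorem lam_mod (L : List ℕ) (hL : ∀ i ∈ L, i + 1 < m) : lam m L % 2 = (m + L.length) % 2 := by
  obtain ⟨_, h1, _, h2, _⟩ := ess_ine L hL
  unfold lam
  omega

theorem lam_comm (L L' : List ℕ) (hL : ∀ i ∈ L, i + 1 < m) (hL' : ∀ i ∈ L', i + 1 < m) :
    lam m (L ++ L') = lam m (L' ++ L) := by
  apply lam_eq
  · intro i hi
    rcases List.mem_append.1 hi with h | h
    · exact hL i h
    · exact hL' i h
  · intro i hi
    rcases List.mem_append.1 hi with h | h
    · exact hL' i h
    · exact hL i h
  · rw [WP_append, WP_append, Matrix.trace_mul_comm]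

end lam

end Pool.Agent.N569.TW
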