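import Pool.Agent.N569.TW.Lam

/-!
# The number of closed curves of a word changes by at most one if a letter is added
-/

set_option autoImplicit false

namespace Pool.Agent.N569.TW

open Pool.Agent.H891R2.Jones Pool.Agent.W639.RB Pool.Agent.TH561 Finset LaurentPolynomial

section lam

variable {m : ℕ}

theorem KK_nat (i : ℕ) (hi : i + 1 < m) (y x : Fin m → Fin 2) :
    ∃ z : ℕ, KK m 2 i y x = z ∧ z ≤ 1 ∧
      (z ≠ 0 → ∀ j, j ≠ (⟨i, Nat.lt_of_succ_lt hi⟩ : Fin m) → j ≠ (⟨i+1, hi⟩ : Fin m) → x j = y j) := by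
  classical
  have h := KK_mul_apply (N := 2) i hi (1 : Matrix (Fin m → Fin 2) (Fin m → Fin 2) ℂ) y x
  rw [mul_one] at h
  by_cases h1 : y ⟨i, Nat.lt_of_succ_lt hi⟩ = y ⟨i+1, hi⟩
  · rw [if_pos h1] at h
    by_cases h2 : ∃ c, upd y ⟨i, Nat.lt_of_succ_lt hi⟩ ⟨i+1, hi⟩ c = x
    · obtain ⟨c, rfl⟩ := h2
      refine ⟨1, ?_, le_rfl, fun _ j h3 h4 => upd_other y c h3 h4⟩
      rw [h, Finset.sum_eq_single c, Matrix.one_apply, if_pos rfl, Nat.cast_one]
      · intro b _ hb
        rw [Matrix.one_apply, if_neg]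
        intro h5
        apply hb
        have h6 := congrFun h5 ⟨i, Nat.lt_of_succ_lt hi⟩
        rw [upd_left, upd_left] at h6
        exact h6
      · intro h5; exact absurd (Finset.mem_univ _) h5
    · refine ⟨0, ?_, Nat.zero_le _, fun h3 => absurd rfl h3⟩
      rw [h, Nat.cast_zero]
      apply Finset.sum_eq_zero
      intro c _
      rw [Matrix.one_apply, if_neg (fun h3 => h2 ⟨c, h3⟩)]
  · rw [if_neg h1] at h
    exact ⟨0, by rw [h, Nat.cast_zero], Nat.zero_le _, fun h3 => absurd rfl h3⟩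

theorem count_le (V : AddSubgroup ((Fin m → Fin 2) × (Fin m → Fin 2))) (p q : Fin m) [DecidablePred (· ∈ V)] :
    #{z : (Fin m → Fin 2) × (Fin m → Fin 2) | z ∈ V ∧ ∀ j, j ≠ p → j ≠ q → z.2 j = z.1 j} ≤
      4 * #{x : Fin m → Fin 2 | (x, x) ∈ V} := by
  classical
  set S : Finset ((Fin m → Fin 2) × (Fin m → Fin 2)) :=
    {z | z ∈ V ∧ ∀ j, j ≠ p → j ≠ q → z.2 j = z.1 j} with hS
  have h1 := Finset.card_eq_sum_card_fiberwise (s := S) (t := (Finset.univ : Finset (Fin 2 × Fin 2)))
    (f := fun z => (z.1 p - z.2 p, z.1 q - z.2 q)) (fun _ _ => Finset.mem_coe.2 (Finset.mem_univ _))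
  rw [h1]
  have h2 : ∀ b ∈ (Finset.univ : Finset (Fin 2 × Fin 2)),
      #{z ∈ S | (z.1 p - z.2 p, z.1 q - z.2 q) = b} ≤ #{x : Fin m → Fin 2 | (x, x) ∈ V} := by
    intro b _
    by_cases hne : ({z ∈ S | (z.1 p - z.2 p, z.1 q - z.2 q) = b} : Finset _).Nonempty
    · obtain ⟨z0, hz0⟩ := hne
      rw [Finset.mem_filter, hS, Finset.mem_filter] at hz0
      obtain ⟨⟨_, hz0V, hz0e⟩, hz0b⟩ := hz0
      have hdiff : ∀ z ∈ ({z ∈ S | (z.1 p - z.2 p, z.1 q - z.2 q) = b} : Finset _), z.2 = z.1 - z0.1 + z0.2 := by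
        intro z hz
        rw [Finset.mem_filter, hS, Finset.mem_filter] at hz
        obtain ⟨⟨_, hzV, hze⟩, hzb⟩ := hz
        rw [← hz0b] at hzb
        have e1 := congrArg Prod.fst hzb
        have e2 := congrArg Prod.snd hzb
        simp only at e1 e2
        funext j
        show z.2 j = z.1 j - z0.1 j + z0.2 j
        by_cases hjp : j = p
        · subst hjp
          have : z.2 j = z.1 j - (z.1 j - z.2 j) := by abel
          rw [this, e1]
          abel
        · by_cases hjq : j = q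
          · subst hjq
            have : z.2 j = z.1 j - (z.1 j - z.2 j) := by abel
            rw [this, e2]
            abel
          · rw [hze j hjp hjq, hz0e j hjp hjq]
            abel
      refine Finset.card_le_card_of_injOn (fun z => z.1 - z0.1) ?_ ?_
      · intro z hz
        have h3 := hdiff z hz
        have hz' : z ∈ ({z ∈ S | (z.1 p - z.2 p, z.1 q - z.2 q) = b} : Finset _) := hz
        rw [Finset.mem_filter, hS, Finset.mem_filter] at hz'
        have h4 := V.sub_mem hz'.1.2.1 hz0V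
        rw [Finset.mem_coe, Finset.mem_filter]
        refine ⟨Finset.mem_univ _, ?_⟩
        have h5 : z - z0 = (z.1 - z0.1, z.1 - z0.1) := by
          apply Prod.ext
          · rfl
          · show z.2 - z0.2 = z.1 - z0.1
            rw [h3]
            abel
        rw [← h5]
        exact h4
      · intro z hz w hw h
        have e1 : z.1 = w.1 := sub_left_injective h
        apply Prod.ext e1
        rw [hdiff z hz, hdiff w hw, e1]
    · rw [Finset.not_nonempty_iff_eq_empty] at hne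
      rw [hne, Finset.card_empty]
      exact Nat.zero_le _
  calc _ ≤ ∑ _b ∈ (Finset.univ : Finset (Fin 2 × Fin 2)), #{x : Fin m → Fin 2 | (x, x) ∈ V} :=
        Finset.sum_le_sum h2
    _ = _ := by simp

theorem lam_add (L : List ℕ) (hL : ∀ i ∈ L, i + 1 < m) (i : ℕ) (hi : i + 1 < m) :
    lam m (L ++ [i]) ≤ lam m L + 1 := by
  classical
  obtain ⟨V, κ, hV⟩ := WP_lin L hL
  have hmem : ∀ k ∈ L ++ [i], k + 1 < m := by
    intro k hk
    rcases List.mem_append.1 hk with h | h
    · exact hL k h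
    · rw [List.mem_singleton] at h; rw [h]; exact hi
  have hval : ∀ x y, WP (KK m 2) L x y = ((if (x, y) ∈ V then κ else 0 : ℕ) : ℂ) := by
    intro x y
    split_ifs with h
    · exact (hV x y).1 h
    · rw [(hV x y).2 h, Nat.cast_zero]
  choose kz hk1 hk2 hk3 using fun y x => KK_nat (m := m) i hi y x
  have e1 : 2 ^ lam m L = κ * #{x : Fin m → Fin 2 | (x, x) ∈ V} := by
    have h1 := trace_lam L hL (N := 2) (by norm_num)
    unfold Matrix.trace at h1
    simp only [Matrix.diag_apply, hval] at h1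
    rw [← Nat.cast_sum, ← Finset.sum_filter, Finset.sum_const, smul_eq_mul] at h1
    have h2 : #{x : Fin m → Fin 2 | (x, x) ∈ V} * κ = 2 ^ lam m L := by exact_mod_cast h1
    rw [← h2, mul_comm]
  have e2 : 2 ^ lam m (L ++ [i]) ≤
      κ * #{z : (Fin m → Fin 2) × (Fin m → Fin 2) | z ∈ V ∧
        ∀ j, j ≠ (⟨i, Nat.lt_of_succ_lt hi⟩ : Fin m) → j ≠ (⟨i+1, hi⟩ : Fin m) → z.2 j = z.1 j} := by
    have h1 := trace_lam (L ++ [i]) hmem (N := 2) (by norm_num)
    rw [WP_append, show WP (KK m 2) [i] = KK m 2 i by simp [WP]] at h1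
    unfold Matrix.trace at h1
    simp only [Matrix.diag_apply, Matrix.mul_apply, hval, hk1] at h1
    have h2 : ∑ x : Fin m → Fin 2, ∑ y : Fin m → Fin 2, (if (x, y) ∈ V then κ else 0) * kz y x =
        2 ^ lam m (L ++ [i]) := by exact_mod_cast h1
    rw [← h2, ← Fintype.sum_prod_type' (fun (x y : Fin m → Fin 2) => (if (x, y) ∈ V then κ else 0) * kz y x)]
    rw [mul_comm, ← smul_eq_mul (a := Finset.card _), ← Finset.sum_const, Finset.sum_filter]
    refine Finset.sum_le_sum fun z _ => ?_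
    by_cases hzV : z ∈ V
    · by_cases hk : kz z.2 z.1 = 0
      · rw [hk, mul_zero]
        exact Nat.zero_le _
      · rw [if_pos hzV, if_pos]
        · calc κ * kz z.2 z.1 ≤ κ * 1 := Nat.mul_le_mul_left _ (hk2 _ _)
            _ = κ := mul_one _
        · refine ⟨hzV, fun j h3 h4 => ?_⟩
          exact (hk3 z.2 z.1 hk j h3 h4).symm
    · rw [if_neg hzV, zero_mul]
      exact Nat.zero_le _
  have e3 := count_le V (⟨i, Nat.lt_of_succ_lt hi⟩ : Fin m) (⟨i+1, hi⟩ : Fin m)
  have e4 : 2 ^ lam m (L ++ [i]) ≤ 2 ^ (lam m L + 2) := by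
    calc 2 ^ lam m (L ++ [i]) ≤ κ * (4 * #{x : Fin m → Fin 2 | (x, x) ∈ V}) :=
          e2.trans (Nat.mul_le_mul_left _ e3)
      _ = 4 * 2 ^ lam m L := by rw [e1]; ring
      _ = 2 ^ (lam m L + 2) := by rw [pow_add]; ring
  have e5 : lam m (L ++ [i]) ≤ lam m L + 2 := (Nat.pow_le_pow_iff_right (by norm_num)).1 e4
  have e6 := lam_mod (L ++ [i]) hmem
  have e7 := lam_mod L hL
  rw [List.length_append, List.length_singleton] at e6
  omega

/-- the number of closed curves is at least the number of pieces -/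
theorem lam_ge (L : List ℕ) (hL : ∀ i ∈ L, i + 1 < m) (C : Finset ℕ) (hC : ∀ i ∈ L, i ∈ C)
    (hCm : ∀ i ∈ C, i + 1 < m) : m ≤ lam m L + #C := by
  classical
  set X : Finset (Fin m → Fin 2) := {x | ∀ i (h : i ∈ C), x ⟨i, Nat.lt_of_succ_lt (hCm i h)⟩ =
    x ⟨i+1, hCm i h⟩} with hX
  -- the diagonal entries of the colourings which are constant on the pieces are positive
  have h1 : ∀ L' : List ℕ, (∀ i ∈ L', i ∈ C) → ∃ f : (Fin m → Fin 2) → (Fin m → Fin 2) → ℕ,
      (∀ x y, WP (KK m 2) L' x y = f x y) ∧ ∀ x ∈ X, 1 ≤ f x x := by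
    intro L'
    induction L' with
    | nil =>
      intro _
      refine ⟨fun x y => if x = y then 1 else 0, fun x y => ?_, fun x _ => ?_⟩
      · rw [WP_nil, Matrix.one_apply]
        beta_reduce
        by_cases h : x = y
        · rw [if_pos h, if_pos h, Nat.cast_one]
        · rw [if_neg h, if_neg h, Nat.cast_zero]
      · simp
    | cons i L' ih =>
      intro h
      obtain ⟨f, hf, hf2⟩ := ih (fun k hk => h k (List.mem_cons_of_mem _ hk))
      have hiC := h i List.mem_cons_self
      have hi := hCm i hiC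
      refine ⟨fun x y => if x ⟨i, Nat.lt_of_succ_lt hi⟩ = x ⟨i+1, hi⟩ then
        ∑ c, f (upd x ⟨i, Nat.lt_of_succ_lt hi⟩ ⟨i+1, hi⟩ c) y else 0, fun x y => ?_, fun x hx => ?_⟩
      · rw [WP_cons, KK_mul_apply i hi]
        simp only [hf]
        split_ifs <;> simp
      · have hx' : x ⟨i, Nat.lt_of_succ_lt hi⟩ = x ⟨i+1, hi⟩ := by
          rw [hX, Finset.mem_filter] at hx
          exact hx.2 i hiC
        simp only
        rw [if_pos hx']
        have h2 : upd x ⟨i, Nat.lt_of_succ_lt hi⟩ ⟨i+1, hi⟩ (x ⟨i, Nat.lt_of_succ_lt hi⟩) = x := by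
          funext j
          simp only [upd]
          split_ifs with hj
          · rcases hj with rfl | rfl
            · rfl
            · exact hx'
          · rfl
        calc 1 ≤ f x x := hf2 x hx
          _ = f (upd x ⟨i, Nat.lt_of_succ_lt hi⟩ ⟨i+1, hi⟩ (x ⟨i, Nat.lt_of_succ_lt hi⟩)) x := by rw [h2]
          _ ≤ _ := Finset.single_le_sum (f := fun c => f (upd x ⟨i, Nat.lt_of_succ_lt hi⟩ ⟨i+1, hi⟩ c) x)
              (fun _ _ => Nat.zero_le _) (Finset.mem_univ _)
  obtain ⟨f, hf, hf2⟩ := h1 L hC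
  have h2 : #X ≤ 2 ^ lam m L := by
    have h3 := trace_lam L hL (N := 2) (by norm_num)
    unfold Matrix.trace at h3
    simp only [Matrix.diag_apply, hf] at h3
    have h4 : ∑ x : Fin m → Fin 2, f x x = 2 ^ lam m L := by exact_mod_cast h3
    rw [← h4]
    calc #X = ∑ _x ∈ X, 1 := by simp
      _ ≤ ∑ x ∈ X, f x x := Finset.sum_le_sum hf2
      _ ≤ _ := Finset.sum_le_univ_sum_of_nonneg (fun _ => Nat.zero_le _)
  -- the number of these colourings
  have h3 : 2 ^ (m - #C) ≤ #X := by
    set g : (Fin m → Fin 2) →+ (C → Fin 2) :=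
      { toFun := fun x i => x ⟨i.1, Nat.lt_of_succ_lt (hCm i.1 i.2)⟩ - x ⟨i.1+1, hCm i.1 i.2⟩
        map_zero' := by
          funext i
          simp
        map_add' := fun x y => by
          funext i
          simp only [Pi.add_apply]
          abel } with hg
    have hcard := g.ker.card_mul_index
    rw [AddSubgroup.index_ker] at hcard
    have hXk : Nat.card g.ker = #X := by
      rw [← Nat.card_eq_finsetCard X]
      refine Nat.card_congr (Equiv.subtypeEquivRight fun x => ?_)
      rw [AddMonoidHom.mem_ker, hX, Finset.mem_filter]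
      constructor
      · intro h
        refine ⟨Finset.mem_univ _, fun i hi => ?_⟩
        have h6 := congrFun h ⟨i, hi⟩
        exact sub_eq_zero.1 h6
      · rintro ⟨_, h⟩
        funext i
        exact sub_eq_zero.2 (h i.1 i.2)
    have hr : Nat.card g.range ≤ 2 ^ #C := by
      calc Nat.card g.range ≤ Nat.card (C → Fin 2) := Nat.card_le_card_of_injective _ Subtype.val_injective
        _ = 2 ^ #C := by simp
    have hG : Nat.card (Fin m → Fin 2) = 2 ^ m := by simp
    rw [hG, hXk] at hcard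
    have h6 : 2 ^ m ≤ #X * 2 ^ #C := by
      rw [← hcard]
      exact Nat.mul_le_mul_left _ hr
    by_cases hmC : #C ≤ m
    · have h7 : 2 ^ m = 2 ^ (m - #C) * 2 ^ #C := by rw [← pow_add]; congr 1; omega
      rw [h7] at h6
      exact Nat.le_of_mul_le_mul_right h6 (by positivity)
    · have h7 : m - #C = 0 := by omega
      rw [h7, pow_zero]
      by_contra h8
      have h9 : #X = 0 := by omega
      rw [h9, zero_mul] at h6
      have h10 : 0 < 2 ^ m := by positivity
      omega
  have h4 : 2 ^ (m - #C) ≤ 2 ^ lam m L := h3.trans h2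
  have h5 := (Nat.pow_le_pow_iff_right (by norm_num)).1 h4
  omega

end lam

end Pool.Agent.N569.TW
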