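import Pool.Agent.N569.TW.Box
import Pool.Agent.N569.TW.Defs

/-!
# The top exponent of the bracket
-/

set_option autoImplicit false

namespace Pool.Agent.N569.TW

open Pool.Agent.H891R2.Jones Pool.Agent.W639.RB Pool.Agent.TH561 Finset LaurentPolynomial

variable {m : ℕ}

theorem ev_bracket_trace (hm : 0 < m) (W : List (Bool × ℕ)) (hW : ∀ x ∈ W, x.2 + 1 < m) (N : ℕ) (hN : 3 ≤ N) :
    ev N hN (dl * (draw (braidClosure m) W).close.bracket) = Matrix.trace (MR (Ar N) m N W) := by
  rw [map_mul, ev_dl]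
  have : Nonempty (draw (braidClosure m) W).P := ⟨(draw (braidClosure m) W).lower ⟨0, hm⟩⟩
  rw [ev_bracket N hN, Z_close, Zg_draw _ _ hW]
  have h2 := rho_of (m := m) (N := N) (Ar N) W hW (fun x y => ind (x = y))
  rw [delta_eq, mul_one] at h2
  rw [← h2]
  unfold Zg Matrix.trace
  refine Finset.sum_congr rfl fun u _ => ?_
  unfold WW braidClosure
  simp

theorem ev_list_sum (N : ℕ) (hN : 3 ≤ N) (S : List (ℤ[T;T⁻¹] × List ℕ))
    (hS : ∀ t ∈ S, ∀ i ∈ t.2, i + 1 < m) :
    ev N hN (S.map (fun t => t.1 * dl ^ lam m t.2)).sum = Matrix.trace (evS m N hN S) := by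
  induction S with
  | nil => simp [evS]
  | cons t S ih =>
    rw [List.map_cons, List.sum_cons, map_add, ih (fun u hu => hS u (List.mem_cons_of_mem _ hu)), evS_cons,
      Matrix.trace_add, Matrix.trace_smul, trace_lam t.2 (hS t List.mem_cons_self) (by omega), map_mul,
      map_pow, ev_dl, smul_eq_mul]

/-- the bracket from an expansion -/
theorem bracket_rep (hm : 0 < m) (W : List (Bool × ℕ)) (hW : ∀ x ∈ W, x.2 + 1 < m) {w : ℤ} {q : ℕ}
    {S : List (ℤ[T;T⁻¹] × List ℕ)} (h : Rep m 0 m W w q S) :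
    dl * (draw (braidClosure m) W).close.bracket =
      T w * dl ^ m + (S.map (fun t => t.1 * dl ^ lam m t.2)).sum := by
  apply eq_of_ev
  intro N hN
  rw [ev_bracket_trace hm W hW, h.eq N hN, Matrix.trace_add, Matrix.trace_smul, map_add,
    ev_list_sum N hN S (fun t ht i hi => by have := (h.mem t ht i hi).2; omega), map_mul, map_pow, ev_dl,
    Matrix.trace_one, Fintype.card_fun, Fintype.card_fin, Fintype.card_fin, smul_eq_mul]
  push_cast
  rfl

/-- the bracket as a sum over the states -/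
theorem bracket_terms (hm : 0 < m) (W : List (Bool × ℕ)) (hW : ∀ x ∈ W, x.2 + 1 < m) :
    dl * (draw (braidClosure m) W).close.bracket =
      ((terms W).map (fun t : ℤ × List ℕ => (T t.1 * dl ^ lam m t.2 : ℤ[T;T⁻¹]))).sum := by
  apply eq_of_ev
  intro N hN
  rw [ev_bracket_trace hm W hW, MR_terms (Ar_ne N hN)]
  have h : ∀ l : List (ℤ × List ℕ), (∀ t ∈ l, ∀ i ∈ t.2, i + 1 < m) →
      Matrix.trace (l.map (fun t : ℤ × List ℕ => Ar N ^ t.1 • WP (KK m N) t.2)).sum =
        ev N hN (l.map (fun t : ℤ × List ℕ => (T t.1 * dl ^ lam m t.2 : ℤ[T;T⁻¹]))).sum := by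
    intro l
    induction l with
    | nil => intro _; simp
    | cons t l ih =>
      intro hl
      rw [List.map_cons, List.sum_cons, List.map_cons, List.sum_cons, Matrix.trace_add, map_add,
        ih (fun u hu => hl u (List.mem_cons_of_mem _ hu)), Matrix.trace_smul,
        trace_lam t.2 (hl t List.mem_cons_self) (by omega), map_mul, map_pow, ev_dl, ev_T, smul_eq_mul]
  exact h _ (terms_mem W hW)

/-- in every summary of an expansion with defect `0` the degree is small -/
theorem small {w : ℤ} {q : ℕ} {W : List (Bool × ℕ)} {S : List (ℤ[T;T⁻¹] × List ℕ)}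
    (h : Rep m 0 m W w q S) (t : ℤ[T;T⁻¹] × List ℕ) (ht : t ∈ S) :
    Dg (t.1 * dl ^ lam m t.2) (w + 4 * q + 2 * m - 4) := by
  obtain ⟨c, L⟩ := t
  have hne := h.ne _ ht
  have hmem := h.mem _ ht
  have hb := h.bnd _ ht
  simp only at hne hmem hb ⊢
  cases L with
  | nil => exact absurd rfl hne
  | cons i L =>
    have hL : ∀ x ∈ i :: L, x + 1 < m := fun x hx => by have := (hmem x hx).2; omega
    have hi := hL i List.mem_cons_self
    have hi1 : ∀ x ∈ [i], x + 1 < m := by intro x hx; rw [List.mem_singleton] at hx; rw [hx]; exact hi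
    have h1 := hb [i] hi1
    have h2 : lam m [i] + 2 ≤ m + 1 := by
      have := (tr_twist (m := m) [i] hi1).1.2
      rcases this with h3 | h3
      · exact absurd h3 (by simp)
      · simpa using h3
    have h3 : lam m ([i] ++ i :: L) = lam m (i :: L) + 1 := by
      have h4 : ∀ x ∈ [i] ++ i :: L, x + 1 < m := fun x hx => by
        rcases List.mem_append.1 hx with hx | hx
        · exact hi1 x hx
        · exact hL x hx
      have h5 := trace_lam (m := m) ([i] ++ i :: L) h4 (N := 2) (by norm_num)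
      have h6 := trace_lam (m := m) (i :: L) hL (N := 2) (by norm_num)
      have h7 : WP (KK m 2) ([i] ++ i :: L) = ((2 : ℕ) : ℂ) • WP (KK m 2) (i :: L) := by
        rw [WP_append, WP_cons, WP_cons, WP_nil, mul_one, ← mul_assoc, (isTL_KK m 2).sq i hi, smul_mul_assoc]
      rw [h7, Matrix.trace_smul, h6, smul_eq_mul] at h5
      have h8 : (2 : ℕ) * 2 ^ lam m (i :: L) = 2 ^ lam m ([i] ++ i :: L) := by exact_mod_cast h5
      rw [← pow_succ'] at h8
      exact (Nat.pow_right_injective le_rfl h8).symm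
    rw [h3] at h1
    have h9 := h1.mul (dg_dl (lam m (i :: L)))
    refine h9.mono ?_
    have h10 : ((lam m [i] : ℕ) : ℤ) + 2 ≤ m + 1 := by exact_mod_cast h2
    push_cast
    linarith

theorem coeff_dl_pow (n : ℕ) : (dl ^ n).coeff (2 * (n : ℤ)) = (-1) ^ n := by
  induction n with
  | zero => 
    rw [pow_zero, ← T_zero, T_apply]
    simp
  | succ n ih =>
    rw [pow_succ', coeff_dl_mul, pow_succ]
    have h1 : 2 * ((n + 1 : ℕ) : ℤ) - 2 = 2 * n := by push_cast; ring
    have h2 := dg_dl n (2 * ((n + 1 : ℕ) : ℤ) + 2) (by push_cast; linarith)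
    rw [h1, ih, h2]
    ring

/-- the largest exponent of the bracket -/
theorem top_bracket (hm : 0 < m) (W : List (Bool × ℕ)) (hW : ∀ x ∈ W, x.2 + 1 < m) {w : ℤ}
    {S : List (ℤ[T;T⁻¹] × List ℕ)} (h : Rep m 0 m W w 0 S) :
    (draw (braidClosure m) W).close.bracket.coeff (w + 2 * (m - 1)) = (-1) ^ (m + 1) ∧
      Dg (draw (braidClosure m) W).close.bracket (w + 2 * (m - 1)) := by
  set b := (draw (braidClosure m) W).close.bracket with hb
  have h1 := bracket_rep hm W hW h
  rw [← hb] at h1
  have h2 : Dg (S.map (fun t => t.1 * dl ^ lam m t.2)).sum (w + 2 * m - 4) :=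
    dg_list _ _ _ (fun t ht => by
      have := small h t ht
      refine this.mono ?_
      push_cast
      linarith)
  have h3 : Dg (T w * dl ^ m) (w + 2 * m) := (dg_T w).mul (dg_dl m)
  have h4 : Dg (dl * b) (w + 2 * m) := by
    rw [h1]
    exact h3.add (h2.mono (by linarith))
  have h5 : (dl * b).coeff (w + 2 * m) = (-1) ^ m := by
    rw [h1, AddMonoidAlgebra.coeff_add, Finsupp.add_apply, h2 _ (by linarith), add_zero, coeff_T_mul]
    have : w + 2 * (m : ℤ) - w = 2 * m := by ring
    rw [this, coeff_dl_pow]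
  have h6 : Dg b (w + 2 * (m - 1)) := by
    intro n hn
    by_contra hne
    -- the largest exponent of `b`
    have hsup : b.coeff.support.Nonempty := ⟨n, Finsupp.mem_support_iff.2 hne⟩
    set M := b.coeff.support.max' hsup with hM
    have hM1 : b.coeff M ≠ 0 := Finsupp.mem_support_iff.1 (Finset.max'_mem _ _)
    have hM2 : ∀ k, M < k → b.coeff k = 0 := by
      intro k hk
      by_contra hk'
      have := Finset.le_max' _ k (Finsupp.mem_support_iff.2 hk')
      omega
    have hM3 : n ≤ M := Finset.le_max' _ n (Finsupp.mem_support_iff.2 hne)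
    have h7 := h4 (M + 2) (by linarith)
    rw [coeff_dl_mul, hM2 (M + 2 + 2) (by omega), sub_zero, add_sub_cancel_right, neg_eq_zero] at h7
    exact hM1 h7
  refine ⟨?_, h6⟩
  rw [coeff_dl_mul, h6 (w + 2 * m + 2) (by linarith), sub_zero] at h5
  have h8 : w + 2 * (m : ℤ) - 2 = w + 2 * (m - 1) := by ring
  rw [h8] at h5
  rw [pow_succ, ← h5]
  ring

end Pool.Agent.N569.TW
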