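import Pool.Agent.N569.TW.Lam2

/-!
# Expansions of braid words into words of generators with bounds of the degrees
-/

set_option autoImplicit false

namespace Pool.Agent.N569.TW

open Pool.Agent.H891R2.Jones Pool.Agent.W639.RB Pool.Agent.TH561 Finset LaurentPolynomial

section dg

/-- no exponents larger than `t` -/
def Dg (f : ℤ[T;T⁻¹]) (t : ℤ) : Prop := ∀ n, t < n → f.coeff n = 0

theorem Dg.mono {f : ℤ[T;T⁻¹]} {t u : ℤ} (h : Dg f t) (htu : t ≤ u) : Dg f u :=
  fun n hn => h n (by omega)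

theorem Dg.add {f g : ℤ[T;T⁻¹]} {t : ℤ} (h : Dg f t) (h' : Dg g t) : Dg (f + g) t := by
  intro n hn
  rw [AddMonoidAlgebra.coeff_add, Finsupp.add_apply, h n hn, h' n hn, add_zero]

theorem Dg.mul {f g : ℤ[T;T⁻¹]} {t u : ℤ} (hf : Dg f t) (hg : Dg g u) : Dg (f * g) (t + u) := by
  intro n hn
  by_contra hcon
  classical
  have h := AddMonoidAlgebra.support_coeff_mul_subset f g (Finsupp.mem_support_iff.2 hcon)
  rw [Finset.mem_add] at h
  obtain ⟨a, ha, b, hb, hab⟩ := h
  have h1 : a ≤ t := by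
    by_contra hcon
    exact (Finsupp.mem_support_iff.1 ha) (hf a (not_le.1 hcon))
  have h2 : b ≤ u := by
    by_contra hcon
    exact (Finsupp.mem_support_iff.1 hb) (hg b (not_le.1 hcon))
  omega

theorem dg_T (n : ℤ) : Dg (T n : ℤ[T;T⁻¹]) n := by
  intro k hk
  rw [T_apply, if_neg (by omega)]

theorem dg_list {α : Type*} (l : List α) (f : α → ℤ[T;T⁻¹]) (t : ℤ) (h : ∀ x ∈ l, Dg (f x) t) :
    Dg (l.map f).sum t := by
  induction l with
  | nil => intro n _; simp
  | cons a l ih =>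
    rw [List.map_cons, List.sum_cons]
    exact (h a List.mem_cons_self).add (ih (fun x hx => h x (List.mem_cons_of_mem _ hx)))

theorem dg_dl (n : ℕ) : Dg (dl ^ n) (2 * n) := by
  induction n with
  | zero =>
    rw [pow_zero, ← T_zero]
    simpa using dg_T 0
  | succ n ih =>
    rw [pow_succ]
    have h1 : Dg dl 2 := by
      unfold dl
      rw [sub_eq_add_neg]
      refine Dg.add ?_ ?_
      · intro k hk
        have := dg_T 2 k hk
        rw [AddMonoidAlgebra.coeff_neg, Finsupp.neg_apply, this, neg_zero]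
      · intro k hk
        have := dg_T (-2) k (by omega)
        rw [AddMonoidAlgebra.coeff_neg, Finsupp.neg_apply, this, neg_zero]
    have h2 := ih.mul h1
    refine h2.mono ?_
    push_cast
    linarith

end dg

variable {m : ℕ}

/-- the coefficient `c` of the word `L` is small, in every context -/
def Bnd (m : ℕ) (c : ℤ[T;T⁻¹]) (L : List ℕ) (E : ℤ) : Prop :=
  ∀ R : List ℕ, (∀ i ∈ R, i + 1 < m) → Dg c (E + 2 * lam m R - 2 * lam m (R ++ L))

theorem Bnd.mono {c : ℤ[T;T⁻¹]} {L : List ℕ} {E E' : ℤ} (h : Bnd m c L E) (hE : E ≤ E') : Bnd m c L E' :=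
  fun R hR => (h R hR).mono (by linarith)

theorem Bnd.mul {c c' : ℤ[T;T⁻¹]} {L L' : List ℕ} {E E' : ℤ} (hL : ∀ i ∈ L, i + 1 < m)
    (h : Bnd m c L E) (h' : Bnd m c' L' E') : Bnd m (c * c') (L ++ L') (E + E') := by
  intro R hR
  have h1 := h R hR
  have h2 := h' (R ++ L) (by
    intro i hi
    rcases List.mem_append.1 hi with hi | hi
    · exact hR i hi
    · exact hL i hi)
  refine (h1.mul h2).mono (le_of_eq ?_)
  rw [List.append_assoc]
  ring

theorem bnd_T (w : ℤ) : Bnd m (T w) [] w := by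
  intro R _
  refine (dg_T w).mono (le_of_eq ?_)
  rw [List.append_nil]
  ring

/-- the value of a formal sum of words of generators -/
noncomputable def evS (m N : ℕ) (hN : 3 ≤ N) (S : List (ℤ[T;T⁻¹] × List ℕ)) :
    Matrix (Fin m → Fin N) (Fin m → Fin N) ℂ :=
  (S.map (fun t => ev N hN t.1 • WP (KK m N) t.2)).sum

theorem evS_nil (N : ℕ) (hN : 3 ≤ N) : evS m N hN [] = 0 := rfl

theorem evS_cons (N : ℕ) (hN : 3 ≤ N) (t : ℤ[T;T⁻¹] × List ℕ) (S : List (ℤ[T;T⁻¹] × List ℕ)) :
    evS m N hN (t :: S) = ev N hN t.1 • WP (KK m N) t.2 + evS m N hN S := by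
  simp [evS]

theorem evS_append (N : ℕ) (hN : 3 ≤ N) (S S' : List (ℤ[T;T⁻¹] × List ℕ)) :
    evS m N hN (S ++ S') = evS m N hN S + evS m N hN S' := by
  simp [evS]

/-- `c` times a formal sum with words put in front and behind -/
noncomputable def mulS (c : ℤ[T;T⁻¹]) (P Q : List ℕ) (S : List (ℤ[T;T⁻¹] × List ℕ)) :
    List (ℤ[T;T⁻¹] × List ℕ) := S.map (fun t => (c * t.1, P ++ t.2 ++ Q))

theorem evS_mulS (N : ℕ) (hN : 3 ≤ N) (c : ℤ[T;T⁻¹]) (P Q : List ℕ) (S : List (ℤ[T;T⁻¹] × List ℕ)) :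
    evS m N hN (mulS c P Q S) = ev N hN c • (WP (KK m N) P * evS m N hN S * WP (KK m N) Q) := by
  induction S with
  | nil => simp [evS, mulS]
  | cons t S ih =>
    have h1 : mulS c P Q (t :: S) = (c * t.1, P ++ t.2 ++ Q) :: mulS c P Q S := rfl
    rw [h1, evS_cons, ih, evS_cons, map_mul, WP_append, WP_append, mul_add, add_mul, smul_add,
      mul_smul_comm, smul_mul_assoc, smul_smul]

/-- product of formal sums -/
noncomputable def prS : List (ℤ[T;T⁻¹] × List ℕ) → List (ℤ[T;T⁻¹] × List ℕ) → List (ℤ[T;T⁻¹] × List ℕ)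
  | [], _ => []
  | t :: S, S' => mulS t.1 t.2 [] S' ++ prS S S'

theorem evS_prS (N : ℕ) (hN : 3 ≤ N) (S S' : List (ℤ[T;T⁻¹] × List ℕ)) :
    evS m N hN (prS S S') = evS m N hN S * evS m N hN S' := by
  induction S with
  | nil => simp [evS, prS]
  | cons t S ih =>
    rw [prS, evS_append, evS_mulS, ih, evS_cons, add_mul, WP_nil, mul_one, smul_mul_assoc]

theorem mem_prS {S S' : List (ℤ[T;T⁻¹] × List ℕ)} {t : ℤ[T;T⁻¹] × List ℕ} (h : t ∈ prS S S') :
    ∃ u ∈ S, ∃ v ∈ S', t = (u.1 * v.1, u.2 ++ v.2) := by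
  induction S with
  | nil => simp [prS] at h
  | cons s S ih =>
    rw [prS, List.mem_append] at h
    rcases h with h | h
    · unfold mulS at h
      rw [List.mem_map] at h
      obtain ⟨v, hv, rfl⟩ := h
      exact ⟨s, List.mem_cons_self, v, hv, by simp⟩
    · obtain ⟨u, hu, v, hv, rfl⟩ := ih h
      exact ⟨u, List.mem_cons_of_mem _ hu, v, hv, rfl⟩

/-- the braid word `W` on the strands `k, …, k + n - 1` has exponent sum `w` and defect at most `q` -/
structure Rep (m k n : ℕ) (W : List (Bool × ℕ)) (w : ℤ) (q : ℕ) (S : List (ℤ[T;T⁻¹] × List ℕ)) : Prop where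
  eq : ∀ N hN, MR (Ar N) m N W = ev N hN (T w) • 1 + evS m N hN S
  ne : ∀ t ∈ S, t.2 ≠ []
  mem : ∀ t ∈ S, ∀ i ∈ t.2, k ≤ i ∧ i + 1 < k + n
  bnd : ∀ t ∈ S, Bnd m t.1 t.2 (w + 4 * q)

theorem MR_append (A : ℂ) (N : ℕ) (U V : List (Bool × ℕ)) :
    MR A m N (U ++ V) = MR A m N U * MR A m N V := by
  simp [MR]

theorem Rep.nil (m k n : ℕ) : Rep m k n [] 0 0 [] where
  eq N hN := by simp [MR, evS]
  ne t ht := by simp at ht
  mem t ht := by simp at ht
  bnd t ht := by simp at ht

theorem Rep.letter {k n : ℕ} (hkn : k + n ≤ m) (b : Bool) (i : ℕ) (h1 : k ≤ i) (h2 : i + 1 < k + n) :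
    ∃ S, Rep m k n [(b, i)] (if b then 1 else -1) (if b then 0 else 1) S := by
  refine ⟨[(T (-sgn (b, i)), [i])], ⟨fun N hN => ?_, fun t ht => ?_, fun t ht j hj => ?_, fun t ht => ?_⟩⟩
  · rw [evS_cons, evS_nil, add_zero, ev_T, ev_T]
    have e1 : MR (Ar N) m N [(b, i)] = ML (Ar N) m N (b, i) := by simp [MR]
    rw [e1, ML]
    congr 1
    simp [WP]
  · rw [List.mem_singleton] at ht
    subst ht
    simp
  · rw [List.mem_singleton] at ht
    subst ht
    simp only [List.mem_singleton] at hj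
    subst hj
    exact ⟨h1, h2⟩
  · rw [List.mem_singleton] at ht
    subst ht
    intro R hR
    have h3 := lam_add R hR i (by omega)
    have h3' : ((lam m (R ++ [i]) : ℕ) : ℤ) ≤ lam m R + 1 := by exact_mod_cast h3
    refine (dg_T _).mono ?_
    simp only
    cases b
    · simp only [sgn]
      norm_num
      linarith
    · simp only [sgn]
      norm_num
      linarith

theorem Rep.append {k n : ℕ} {U V : List (Bool × ℕ)} {w w' : ℤ} {q q' : ℕ}
    {S S' : List (ℤ[T;T⁻¹] × List ℕ)} (hkn : k + n ≤ m) (h : Rep m k n U w q S)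
    (h' : Rep m k n V w' q' S') : ∃ S'', Rep m k n (U ++ V) (w + w') (q + q') S'' := by
  refine ⟨mulS (T w) [] [] S' ++ (mulS (T w') [] [] S ++ prS S S'), ⟨fun N hN => ?_, fun t ht => ?_,
    fun t ht => ?_, fun t ht => ?_⟩⟩
  · rw [MR_append, h.eq N hN, h'.eq N hN, evS_append, evS_append, evS_mulS, evS_mulS, evS_prS, WP_nil,
      one_mul, mul_one, one_mul, mul_one, T_add, map_mul, add_mul, mul_add, mul_add, smul_mul_assoc,
      one_mul, smul_mul_assoc, one_mul, mul_smul_comm, mul_one, smul_smul]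
    abel
  · rw [List.mem_append, List.mem_append] at ht
    rcases ht with ht | ht | ht
    · unfold mulS at ht
      rw [List.mem_map] at ht
      obtain ⟨u, hu, rfl⟩ := ht
      simpa using h'.ne u hu
    · unfold mulS at ht
      rw [List.mem_map] at ht
      obtain ⟨u, hu, rfl⟩ := ht
      simpa using h.ne u hu
    · obtain ⟨u, hu, v, hv, rfl⟩ := mem_prS ht
      simp only [ne_eq, List.append_eq_nil_iff, not_and]
      intro h0
      exact absurd h0 (h.ne u hu)
  · rw [List.mem_append, List.mem_append] at ht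
    rcases ht with ht | ht | ht
    · unfold mulS at ht
      rw [List.mem_map] at ht
      obtain ⟨u, hu, rfl⟩ := ht
      simpa using h'.mem u hu
    · unfold mulS at ht
      rw [List.mem_map] at ht
      obtain ⟨u, hu, rfl⟩ := ht
      simpa using h.mem u hu
    · obtain ⟨u, hu, v, hv, rfl⟩ := mem_prS ht
      intro i hi
      rcases List.mem_append.1 hi with hi | hi
      · exact h.mem u hu i hi
      · exact h'.mem v hv i hi
  · have hm1 : ∀ u ∈ S, ∀ i ∈ u.2, i + 1 < m := fun u hu i hi => by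
      have := (h.mem u hu i hi).2; omega
    rw [List.mem_append, List.mem_append] at ht
    rcases ht with ht | ht | ht
    · unfold mulS at ht
      rw [List.mem_map] at ht
      obtain ⟨u, hu, rfl⟩ := ht
      have h1 := (bnd_T (m := m) w).mul (by simp) (h'.bnd u hu)
      simp only [List.nil_append, List.append_nil] at h1 ⊢
      refine h1.mono ?_
      push_cast
      have : (0 : ℤ) ≤ q := by positivity
      linarith
    · unfold mulS at ht
      rw [List.mem_map] at ht
      obtain ⟨u, hu, rfl⟩ := ht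
      have h1 := (bnd_T (m := m) w').mul (by simp) (h.bnd u hu)
      simp only [List.nil_append, List.append_nil] at h1 ⊢
      refine h1.mono ?_
      push_cast
      have : (0 : ℤ) ≤ q' := by positivity
      linarith
    · obtain ⟨u, hu, v, hv, rfl⟩ := mem_prS ht
      have h1 := (h.bnd u hu).mul (hm1 u hu) (h'.bnd v hv)
      refine h1.mono ?_
      push_cast
      linarith

theorem Rep.mono {k n k' n' : ℕ} {U : List (Bool × ℕ)} {w : ℤ} {q q' : ℕ}
    {S : List (ℤ[T;T⁻¹] × List ℕ)} (h : Rep m k n U w q S) (hk : k' ≤ k) (hn : k + n ≤ k' + n')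
    (hq : q ≤ q') : Rep m k' n' U w q' S where
  eq := h.eq
  ne := h.ne
  mem t ht i hi := by
    have := h.mem t ht i hi
    omega
  bnd t ht := (h.bnd t ht).mono (by
    have : (q : ℤ) ≤ q' := by exact_mod_cast hq
    linarith)

/-- positive words have defect `0` -/
theorem Rep.pos {k n : ℕ} (hkn : k + n ≤ m) (U : List (Bool × ℕ))
    (hU : ∀ x ∈ U, x.1 = true ∧ k ≤ x.2 ∧ x.2 + 1 < k + n) :
    ∃ S, Rep m k n U U.length 0 S := by
  induction U with
  | nil => exact ⟨[], by simpa using Rep.nil m k n⟩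
  | cons x U ih =>
    obtain ⟨S, hS⟩ := ih (fun y hy => hU y (List.mem_cons_of_mem _ hy))
    obtain ⟨h1, h2, h3⟩ := hU x List.mem_cons_self
    obtain ⟨b, i⟩ := x
    simp only at h1 h2 h3
    subst h1
    obtain ⟨S1, hS1⟩ := Rep.letter hkn true i h2 h3
    obtain ⟨S2, hS2⟩ := hS1.append hkn hS
    refine ⟨S2, ?_⟩
    rw [if_pos rfl, if_pos rfl] at hS2
    have e1 : (((true, i) :: U).length : ℤ) = 1 + (U.length : ℤ) := by
      push_cast [List.length_cons]
      ring
    rw [e1]
    exact hS2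

end Pool.Agent.N569.TW
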